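import Pool.Agent.MP_6574cc_co.H3.Loc

/-! Averages at an optimal weighting. -/

set_option autoImplicit false

namespace Pool.Agent.MP_6574cc_co.H3

open Finset

variable {V : Type} [DecidableEq V]

/-- the total weight of the family -/
def lam (H : Finset (Finset V)) (w : V → ℝ) : ℝ := ∑ A ∈ H, W w A

/-- First and second order conditions. -/
structure Opt (S : Finset V) (H : Finset (Finset V)) (w : V → ℝ) : Prop extends Cov S H w where
  pos : ∀ v ∈ S, 0 < w v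
  sum : ps w 1 S = 1
  f1 : ∀ f : V → ℝ, ∑ A ∈ H, W w A * ∑ v ∈ A, f v = 5 * lam H w * ∑ v ∈ S, w v * f v
  f2 : ∀ y : V → ℝ, ∑ v ∈ S, w v * y v = 0 →
    ∑ A ∈ H, W w A * (∑ v ∈ A, y v) ^ 2 ≤ 5 * lam H w * ∑ v ∈ S, w v * y v ^ 2

namespace Opt

variable {S : Finset V} {H : Finset (Finset V)} {w : V → ℝ} (c : Opt S H w)

include c

theorem Wn {A : Finset V} (hA : A ∈ H) : 0 ≤ W w A := W_nonneg c.nn (c.sub A hA)

theorem lam_nn : 0 ≤ lam H w := sum_nonneg fun _ hA => c.Wn hA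

theorem mom (j : ℕ) : ∑ A ∈ H, W w A * ps w j A = 5 * lam H w * ps w (j + 1) S := by
  simp only [ps, pow_succ']
  exact c.f1 fun v => w v ^ j

theorem le5 (h : 0 < lam H w) {v : V} (hv : v ∈ S) : w v ≤ 1 / 5 := by
  have h1 := c.f1 fun u => if u = v then 1 else 0
  simp only [sum_ite_eq', mul_ite, mul_one, mul_zero, if_pos hv] at h1
  have h2 : (∑ A ∈ H, if v ∈ A then W w A else 0) ≤ lam H w := sum_le_sum fun A hA => by
    split_ifs
    exacts [le_rfl, c.Wn hA]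
  nlinarith

theorem e2 : es w 2 S = (1 - ps w 2 S) / 2 := by rw [(es_eq w S).2.1, c.sum]; ring

theorem e3 : es w 3 S = (1 - 3 * ps w 2 S + 2 * ps w 3 S) / 6 := by
  rw [(es_eq w S).2.2.1, c.sum]; ring

theorem hb4 : 120 * lam H w * S.card ≤
    1 - 6 * ps w 2 S + 3 * ps w 2 S ^ 2 + 8 * ps w 3 S - 6 * ps w 4 S := by
  have h1 := c.f1 fun u => (w u)⁻¹
  have h2 := c.toCov.b4
  rw [(es_eq w S).2.2.2, c.sum] at h2
  rw [sum_congr rfl fun v hv => mul_inv_cancel₀ (c.pos v hv).ne', sum_const, nsmul_eq_mul,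
    sum_congr rfl (g := fun A => ∑ v ∈ A, W w (A.erase v)) fun A hA => by
      rw [mul_sum]
      refine sum_congr rfl fun v hv => ?_
      rw [W, ← prod_erase_mul _ _ hv, mul_inv_cancel_right₀ (c.pos v (c.sub A hA hv)).ne', W]] at h1
  linarith

theorem var (k : ℝ) :
    ∑ A ∈ H, W w A * (ps w 1 A - 5 * ps w 2 S - k * (ps w 2 A - 5 * ps w 3 S)) ^ 2 ≤
      5 * lam H w * (ps w 3 S - 2 * k * ps w 4 S + k ^ 2 * ps w 5 S -
        (ps w 2 S - k * ps w 3 S) ^ 2) := by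
  obtain ⟨d, hd⟩ : ∃ d, d = ps w 2 S - k * ps w 3 S := ⟨_, rfl⟩
  have h1 := c.f2 (fun v => w v - k * w v ^ 2 - d) (by
    rw [sum_congr rfl (g := fun v => w v ^ 2 - k * w v ^ 3 - d * w v ^ 1) fun v _ => by ring]
    simp only [sum_sub_distrib, ← mul_sum]
    change ps w 2 S - k * ps w 3 S - d * ps w 1 S = 0
    rw [c.sum, hd]; ring)
  have h2 : ∑ v ∈ S, w v * (w v - k * w v ^ 2 - d) ^ 2 = ps w 3 S - 2 * k * ps w 4 S +
      k ^ 2 * ps w 5 S - 2 * d * ps w 2 S + 2 * d * k * ps w 3 S + d ^ 2 * ps w 1 S := by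
    simp only [ps, mul_sum, ← sum_sub_distrib, ← sum_add_distrib]
    exact sum_congr rfl fun v _ => by ring
  rw [h2, c.sum] at h1
  refine le_trans (le_of_eq (sum_congr rfl fun A hA => ?_)) (h1.trans (le_of_eq (by rw [hd]; ring)))
  simp only [sum_sub_distrib, ← mul_sum, sum_const, c.card A hA, nsmul_eq_mul, hd, ps, pow_one]
  push_cast
  ring

theorem dc0 (k : ℕ) (f : Finset V → ℝ) : ∑ X ∈ S.powersetCard k, W w X * lk w H f X =
    (Nat.choose 5 k : ℕ) * ∑ A ∈ H, W w A * f A := by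
  have h := dc w c.sub k f 1
  simp only [Pi.one_apply, mul_one, sum_const, card_powersetCard, nsmul_eq_mul] at h
  rw [h, mul_sum]
  exact sum_congr rfl fun A hA => by rw [c.card A hA]; ring

theorem tang (k : ℕ) (hk : Nat.choose 5 k = 10) (l : ℝ) : 20 * l * lam H w - l ^ 2 * es w k S ≤
    ∑ A ∈ H, W w A * ∑ X ∈ A.powersetCard k, lk w H 1 X := by
  have h1 := c.dc0 k 1
  have h2 := dc w c.sub k 1 (lk w H 1)
  simp only [Pi.one_apply, mul_one, hk] at h1 h2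
  have h3 : ∑ X ∈ S.powersetCard k, (2 * l * (W w X * lk w H 1 X) - l ^ 2 * W w X) ≤
      ∑ X ∈ S.powersetCard k, W w X * lk w H 1 X * lk w H 1 X := sum_le_sum fun X hX => by
    nlinarith [mul_nonneg (W_nonneg c.nn (mem_powersetCard.1 hX).1) (sq_nonneg (lk w H 1 X - l))]
  rw [sum_sub_distrib, ← mul_sum, ← mul_sum, h1, h2] at h3
  rw [lam, es]
  push_cast at h3
  linarith

theorem ht1 (l : ℝ) : 20 * l * lam H w - l ^ 2 * ((1 - 3 * ps w 2 S + 2 * ps w 3 S) / 6) ≤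
    lam H w * ((1 - 11 * ps w 2 S + 10 * ps w 3 S + 40 * ps w 2 S ^ 2) / 2) := by
  have h1 := c.tang 3 rfl l
  have h2 := c.var 0
  have h3 := c.mom 1
  have h4 : ∑ A ∈ H, W w A * ∑ X ∈ A.powersetCard 3, lk w H 1 X ≤
      ∑ A ∈ H, (((1 - ps w 2 S) / 2 - 25 * ps w 2 S ^ 2) * W w A +
        (10 * ps w 2 S - 1) * (W w A * ps w 1 A) +
        W w A * (ps w 1 A - 5 * ps w 2 S - 0 * (ps w 2 A - 5 * ps w 3 S)) ^ 2) :=
    sum_le_sum fun A hA => by
      refine (mul_le_mul_of_nonneg_left (c.toCov.t1 hA) (c.Wn hA)).trans (le_of_eq ?_)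
      rw [(es_eq w _).2.1, (es_eq w _).2.1, ps_sdiff w (c.sub A hA), ps_sdiff w (c.sub A hA), c.sum]
      ring
  rw [sum_add_distrib, sum_add_distrib, ← mul_sum, ← mul_sum, h3] at h4
  rw [c.e3] at h1
  rw [lam] at *
  norm_num at h2 h4 ⊢
  linarith

theorem mid (hs : ∀ X ⊆ S, X.card ≤ 5 → ps w 1 X ≤ 1 / 2) (l : ℝ) :
    20 * l * lam H w * (1 - 10 * ps w 2 S) - l ^ 2 * (es w 3 S - 2 * gs w 3 S -
      lam H w * (80 + 240 * ps w 2 S)) ≤
    ∑ A ∈ H, W w A * (1 - 2 * ps w 1 A) * ∑ X ∈ A.powersetCard 3, lk w H 1 X := by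
  have h1 := c.dc0 3 1
  have h2 := c.dc0 3 fun A => 1 - 2 * ps w 1 A
  have h3 := dc w c.sub 3 1 (ps w 1)
  have h4 := c.mom 1
  have h5 : ∑ A ∈ H, W w A * (1 - 2 * ps w 1 A) = lam H w - 2 * ∑ A ∈ H, W w A * ps w 1 A := by
    rw [lam, mul_sum, ← sum_sub_distrib]
    exact sum_congr rfl fun A _ => by ring
  have h6 : ∑ A ∈ H, W w A * (1 : Finset V → ℝ) A * ∑ X ∈ A.powersetCard 3, ps w 1 X =
      6 * ∑ A ∈ H, W w A * ps w 1 A := by
    rw [mul_sum]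
    refine sum_congr rfl fun A hA => ?_
    rw [← cs, (cs_eq w A).2.2, c.card A hA, Pi.one_apply]
    push_cast
    ring
  have h7 : ∑ X ∈ S.powersetCard 3, (2 * l * (W w X * lk w H (fun A => 1 - 2 * ps w 1 A) X) -
      l ^ 2 * (W w X - 2 * (W w X * ps w 1 X) - 8 * (W w X * lk w H 1 X) -
        8 * (W w X * ps w 1 X * lk w H 1 X))) ≤ ∑ X ∈ S.powersetCard 3,
      W w X * lk w H 1 X * lk w H (fun A => 1 - 2 * ps w 1 A) X := sum_le_sum fun X hX => by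
    obtain ⟨a, b⟩ := mem_powersetCard.1 hX
    have p := W_nonneg c.nn a
    have q := c.toCov.link c.sum hX
    have r : ∀ f : Finset V → ℝ, (∀ A ∈ H, 0 ≤ f A) → 0 ≤ lk w H f X := fun f hf =>
      sum_nonneg fun A hA => mul_nonneg (W_nonneg c.nn (sdiff_subset.trans
        (c.sub A (mem_filter.1 hA).1))) (hf A (mem_filter.1 hA).1)
    have r1 := r 1 fun _ _ => zero_le_one
    have r2 := r (fun A => 1 - 2 * ps w 1 A) fun A hA => by
      linarith [hs A (c.sub A hA) (c.card A hA).le]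
    have r3 := hs X a (by omega)
    generalize lk w H (fun A => 1 - 2 * ps w 1 A) X = F at *
    generalize lk w H 1 X = L at *
    generalize ps w 1 X = s at *
    have key : 2 * l * F - l ^ 2 * (1 - 2 * s - 8 * L * (1 + s)) ≤ L * F := by
      rcases r1.eq_or_lt with e | e
      · subst e
        have : F = 0 := by linarith
        subst this
        nlinarith [mul_nonneg (sq_nonneg l) (sub_nonneg.2 r3)]
      · refine le_of_mul_le_mul_left ?_ e
        nlinarith [mul_nonneg (sq_nonneg (L - l)) r2, mul_le_mul_of_nonneg_left q (sq_nonneg l)]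
    nlinarith [mul_le_mul_of_nonneg_left key p]
  rw [dc w c.sub] at h7
  simp only [sum_sub_distrib, ← mul_sum] at h7
  rw [h1, h2, h3, h5, h6, h4] at h7
  simp only [Pi.one_apply, mul_one, show Nat.choose 5 3 = 10 from rfl] at h7
  rw [es, gs]
  rw [lam] at *
  norm_num at h7 ⊢
  linarith

omit c in
theorem sym : ∑ A ∈ H, W w A * ∑ B ∈ H with (B ∩ A).card = 3, W w (B \ A) * ps w 1 B =
    ∑ A ∈ H, W w A * ∑ B ∈ H with (B ∩ A).card = 3, W w (B \ A) * ps w 1 A := by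
  simp only [mul_sum, sum_filter]
  rw [sum_comm]
  refine sum_congr rfl fun A _ => sum_congr rfl fun B _ => ?_
  rw [inter_comm]
  split_ifs
  · rw [← W_sdiff w (inter_subset_left (s₁ := B) (s₂ := A)),
      ← W_sdiff w (inter_subset_right (s₁ := B) (s₂ := A)), sdiff_inter_self_left,
      sdiff_inter_self_right]
    ring
  · simp

theorem ht2 (hs : ∀ X ⊆ S, X.card ≤ 5 → ps w 1 X ≤ 1 / 2) (l₂ l a k μ : ℝ) (hak : 2 * a * k = 1)
    (ha0 : 0 ≤ a) (ha : 2 - 40 / 3 * ps w 2 S ≤ a) :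
    20 * l₂ * lam H w - l₂ ^ 2 * ((1 - ps w 2 S) / 2) + (20 * l * lam H w * (1 - 10 * ps w 2 S) -
      l ^ 2 * ((1 - 3 * ps w 2 S + 2 * ps w 3 S) / 6 -
        2 * (ps w 2 S * (1 - ps w 2 S) / 2 - ps w 3 S + ps w 4 S) -
        lam H w * (80 + 240 * ps w 2 S))) ≤
    lam H w * (1 / 2 - 9 * ps w 2 S + 115 / 2 * ps w 2 S ^ 2 - 500 / 3 * ps w 2 S ^ 3 +
      6 * ps w 3 S - 25 * ps w 2 S * ps w 3 S - 10 / 3 * ps w 4 S +
      5 * a * (ps w 3 S - 2 * k * ps w 4 S + k ^ 2 * ps w 5 S -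
        2 * μ * (ps w 2 S - k * ps w 3 S) + μ ^ 2)) := by
  have h1 := c.tang 2 rfl l₂
  have h2 := c.mid hs l
  have h3 := sym (H := H) (w := w)
  have h4 := mul_le_mul_of_nonneg_left (c.var k) ha0
  have m1 := c.mom 1
  have m2 := c.mom 2
  have m3 := c.mom 3
  rw [c.e2] at h1
  rw [c.e3, (gs_eq w S).2.2, c.sum] at h2
  obtain ⟨q, hq⟩ : ∃ q, q = ps w 2 S := ⟨_, rfl⟩
  obtain ⟨p, hp⟩ : ∃ p, p = ps w 3 S := ⟨_, rfl⟩
  have h5 : ∑ A ∈ H, (W w A * ∑ X ∈ A.powersetCard 2, lk w H 1 X +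
      W w A * (1 - 2 * ps w 1 A) * ∑ X ∈ A.powersetCard 3, lk w H 1 X +
      W w A * ∑ B ∈ H with (B ∩ A).card = 3, W w (B \ A) * ps w 1 A -
      W w A * ∑ B ∈ H with (B ∩ A).card = 3, W w (B \ A) * ps w 1 B) ≤
      ∑ A ∈ H, ((1 / 2 - 3 / 2 * q + p - 50 * q ^ 2 + 1000 / 3 * q ^ 3 + 25 * q * p) * W w A +
        (-3 / 2 + 43 / 2 * q - 100 * q ^ 2 - 5 * p) * (W w A * ps w 1 A) +
        (1 - 5 * q) * (W w A * ps w 2 A) - 2 / 3 * (W w A * ps w 3 A) +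
        a * (W w A * (ps w 1 A - 5 * q - k * (ps w 2 A - 5 * p)) ^ 2)) := sum_le_sum fun A hA => by
    have t := c.toCov.t2 hA
    have u : ∑ B ∈ H with (B ∩ A).card = 3, W w (B \ A) * (ps w 1 S - ps w 1 A - ps w 1 B) =
        (1 - 2 * ps w 1 A) * ∑ B ∈ H with (B ∩ A).card = 3, W w (B \ A) +
        ∑ B ∈ H with (B ∩ A).card = 3, W w (B \ A) * ps w 1 A -
        ∑ B ∈ H with (B ∩ A).card = 3, W w (B \ A) * ps w 1 B := by
      rw [mul_sum, ← sum_add_distrib, ← sum_sub_distrib, c.sum]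
      exact sum_congr rfl fun B _ => by ring
    rw [u, (es_eq w _).2.2.1, (es_eq w _).2.2.1, ps_sdiff w (c.sub A hA), ps_sdiff w (c.sub A hA),
      ps_sdiff w (c.sub A hA), c.sum, ← hq, ← hp] at t
    rw [c.toCov.s3 hA, (es_eq w _).2.1]
    have s0 := ps_nonneg c.nn (c.sub A hA) 1
    rw [← hq] at ha
    generalize ps w 1 A = s at *
    generalize ps w 2 A = x at *
    have v1 : a * (s - 5 * q - k * (x - 5 * p)) ^ 2 = a * (s - 5 * q) ^ 2 -
        (s - 5 * q) * (x - 5 * p) + a * (k * (x - 5 * p)) ^ 2 := by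
      linear_combination (-(s - 5 * q) * (x - 5 * p)) * hak
    have v2 := mul_nonneg ha0 (sq_nonneg (k * (x - 5 * p)))
    have v3 := mul_nonneg (sub_nonneg.2 ha) (sq_nonneg (s - 5 * q))
    have v4 := mul_nonneg s0 (sq_nonneg (s - 5 * q))
    have key := mul_le_mul_of_nonneg_left (show
      ∑ X ∈ A.powersetCard 2, lk w H 1 X + (1 - 2 * s) * ((s ^ 2 - x) / 2 +
        ∑ B ∈ H with (B ∩ A).card = 3, W w (B \ A)) +
        ∑ B ∈ H with (B ∩ A).card = 3, W w (B \ A) * s -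
        ∑ B ∈ H with (B ∩ A).card = 3, W w (B \ A) * ps w 1 B ≤
      (1 / 2 - 3 / 2 * q + p - 50 * q ^ 2 + 1000 / 3 * q ^ 3 + 25 * q * p) +
        (-3 / 2 + 43 / 2 * q - 100 * q ^ 2 - 5 * p) * s + (1 - 5 * q) * x - 2 / 3 * ps w 3 A +
        a * (s - 5 * q - k * (x - 5 * p)) ^ 2 by rw [v1]; nlinarith) (c.Wn hA)
    linarith
  simp only [sum_sub_distrib, sum_add_distrib, ← mul_sum] at h5
  rw [m1, m2, m3, h3] at h5
  have h6 := mul_nonneg (mul_nonneg c.lam_nn ha0) (sq_nonneg (q - k * p - μ))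
  rw [lam] at *
  simp only [Nat.reduceAdd, ← hq, ← hp] at *
  linarith

end Opt

end Pool.Agent.MP_6574cc_co.H3
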