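import Pool.Agent.MP_6574cc_co.H3.Sym

/-! Local counts in a cancellative family that covers all pairs. -/

set_option autoImplicit false

namespace Pool.Agent.MP_6574cc_co.H3

open Finset

variable {V : Type} [DecidableEq V]

/-- A cancellative family of five element sets that covers all pairs, with weights. -/
structure Cov (S : Finset V) (H : Finset (Finset V)) (w : V → ℝ) : Prop where
  sub : ∀ A ∈ H, A ⊆ S
  card : ∀ A ∈ H, A.card = 5
  canc : ∀ A ∈ H, ∀ B ∈ H, ∀ C ∈ H, B \ A = C \ A → B = C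
  cov : ∀ u ∈ S, ∀ v ∈ S, u ≠ v → ∃ A ∈ H, u ∈ A ∧ v ∈ A
  nn : ∀ v ∈ S, 0 ≤ w v

theorem three {α : Type} {P : α → Prop} {p p' : α} (hP : ∀ a, P a → a = p ∨ a = p')
    {a x : Fin 3 → α} (ha : ∀ i, P (a i))
    (h3 : ∀ i j k, i ≠ k → j ≠ k → a i = a j → x i ≠ x j ∧ (x k = x i ∨ x k = x j) ∨ i = j)
    (h4 : ∀ i j, x i = x j → a i = a j) : False := by
  have key : ∀ i j k, i ≠ j → i ≠ k → j ≠ k → a i ≠ a j := fun i j k b c d e => by
    rcases h3 i j k c d e with ⟨-, f | f⟩ | f
    · rcases h3 k i j d.symm b (h4 _ _ f) with g | g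
      exacts [g.1 f, c g.symm]
    · rcases h3 k j i c.symm b.symm (h4 _ _ f) with g | g
      exacts [g.1 f, d g.symm]
    · exact b f
  have a1 := key 0 1 2 (by decide) (by decide) (by decide)
  have a2 := key 0 2 1 (by decide) (by decide) (by decide)
  have a3 := key 1 2 0 (by decide) (by decide) (by decide)
  rcases hP _ (ha 0) with b | b <;> rcases hP _ (ha 1) with c | c <;>
    rcases hP _ (ha 2) with d | d <;> simp_all

namespace Cov

variable {S : Finset V} {H : Finset (Finset V)} {w : V → ℝ} (c : Cov S H w)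

include c

theorem eq_of_le {A B : Finset V} (hA : A ∈ H) (hB : B ∈ H) (h : (A \ B).card ≤ 1) : A = B := by
  have e := (c.card A hA).trans (c.card B hB).symm
  rcases Nat.le_one_iff_eq_zero_or_eq_one.1 h with h | h
  · exact eq_of_subset_of_card_le (sdiff_eq_empty_iff_subset.1 (card_eq_zero.1 h)) e.ge
  obtain ⟨u, hu⟩ := card_eq_one.1 h
  obtain ⟨v, hv⟩ := card_eq_one.1 ((card_sdiff_comm e).symm.trans h)
  have u1 := mem_sdiff.1 (hu.ge (mem_singleton_self u))
  have v1 := mem_sdiff.1 (hv.ge (mem_singleton_self v))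
  obtain ⟨C, hC, u2, v2⟩ := c.cov u (c.sub A hA u1.1) v (c.sub B hB v1.1) fun q => u1.2 (q ▸ v1.1)
  refine c.canc C hC A hA B hB (Finset.ext fun x => ?_)
  have a1 := Finset.ext_iff.1 hu x
  have a2 := Finset.ext_iff.1 hv x
  simp only [mem_sdiff, mem_singleton] at a1 a2 ⊢
  by_cases p : x = u
  · simp [p, u2]
  by_cases q : x = v
  · simp [q, v2]
  tauto

theorem inter {A B : Finset V} (hA : A ∈ H) (hB : B ∈ H) (h : B ≠ A) : (B ∩ A).card ≤ 3 := by
  have h1 := card_sdiff_add_card_inter B A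
  have h2 := mt (c.eq_of_le hB hA) h
  have := c.card B hB
  omega

theorem b4 : ∑ A ∈ H, ∑ v ∈ A, W w (A.erase v) ≤ es w 4 S := by
  rw [sum_sigma', ← sum_image (s := H.sigma fun A => A) (g := fun x => x.1.erase x.2) (f := W w)]
  · refine sum_le_sum_of_subset_of_nonneg (fun X hX => ?_) fun X hX _ =>
      W_nonneg c.nn (mem_powersetCard.1 hX).1
    obtain ⟨x, hx, rfl⟩ := mem_image.1 hX
    obtain ⟨a, b⟩ := mem_sigma.1 hx
    exact mem_powersetCard.2 ⟨(erase_subset _ _).trans (c.sub _ a), by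
      rw [card_erase_of_mem b, c.card _ a]⟩
  · rintro ⟨A, u⟩ hx ⟨B, v⟩ hy e
    obtain ⟨a, b⟩ := mem_sigma.1 (mem_coe.1 hx)
    obtain ⟨a', b'⟩ := mem_sigma.1 (mem_coe.1 hy)
    dsimp only at a b a' b' e
    obtain rfl : A = B := c.eq_of_le a a' ((card_le_card (t := {u}) fun x q => by
      by_contra r
      have : x ∈ A.erase u := mem_erase.2 ⟨fun s => r (by simp [s]), (mem_sdiff.1 q).1⟩
      exact (mem_sdiff.1 q).2 (mem_of_mem_erase (e ▸ this))).trans (by simp))
    rw [erase_injOn A b b' e]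

theorem split {A : Finset V} (hA : A ∈ H) (F : Finset V → ℝ)
    (h : ∀ B ∈ H, (B ∩ A).card < 2 → F B = 0) : ∑ B ∈ H, F B =
      F A + ∑ B ∈ H with (B ∩ A).card = 3, F B + ∑ B ∈ H with (B ∩ A).card = 2, F B := by
  rw [sum_filter, sum_filter, ← if_pos (t := F A) (e := 0) hA, ← sum_ite_eq' H A F,
    ← sum_add_distrib, ← sum_add_distrib]
  refine sum_congr rfl fun B hB => ?_
  by_cases e : B = A
  · simp [e, c.card A hA]
  have := c.inter hA hB e
  by_cases e3 : (B ∩ A).card = 3
  · simp [e, e3]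
  by_cases e2 : (B ∩ A).card = 2
  · simp [e, e2]
  simp [e, e2, e3, h B hB (by omega)]

theorem s3 {A : Finset V} (hA : A ∈ H) : ∑ X ∈ A.powersetCard 3, lk w H 1 X =
    es w 2 A + ∑ B ∈ H with (B ∩ A).card = 3, W w (B \ A) := by
  rw [loc, c.split hA _ fun B _ h => by rw [powersetCard_eq_empty.2 (by omega)]; simp,
    sum_eq_zero (s := H.filter fun B => (B ∩ A).card = 2) fun B hB => by
      rw [powersetCard_eq_empty.2 (by rw [(mem_filter.1 hB).2]; omega)]; simp,
    inter_self, compl_sum w (j := 2) (c.card A hA), add_zero, Finset.sdiff_self]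
  congr 1
  · simp [W]
  · refine sum_congr rfl fun B hB => ?_
    rw [compl_sum w (j := 0) (mem_filter.1 hB).2, es_zero, mul_one]

theorem s2 {A : Finset V} (hA : A ∈ H) : ∑ X ∈ A.powersetCard 2, lk w H 1 X =
    es w 3 A + ∑ B ∈ H with (B ∩ A).card = 3, W w (B \ A) * ps w 1 (B ∩ A) +
      ∑ B ∈ H with (B ∩ A).card = 2, W w (B \ A) := by
  rw [loc, c.split hA _ fun B _ h => by rw [powersetCard_eq_empty.2 (by omega)]; simp,
    inter_self, compl_sum w (j := 3) (c.card A hA), Finset.sdiff_self]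
  congr 1
  · congr 1
    · simp [W]
    · refine sum_congr rfl fun B hB => ?_
      rw [compl_sum w (j := 1) (mem_filter.1 hB).2, (es_eq w _).1]
  · refine sum_congr rfl fun B hB => ?_
    rw [compl_sum w (j := 0) (mem_filter.1 hB).2, es_zero, mul_one]

theorem out {A : Finset V} (hA : A ∈ H) (i j : ℕ) (hij : i + j = 5) (f : Finset V → ℝ) :
    ∑ B ∈ H with (B ∩ A).card = i, f (B \ A) = ∑ R ∈ (S \ A).powersetCard j,
      if ∃ B ∈ H, B \ A = R then f R else 0 := by
  rw [← sum_filter, ← sum_image (g := fun B => B \ A) (f := f) fun B hB C hC e =>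
    c.canc A hA B (mem_filter.1 hB).1 C (mem_filter.1 hC).1 e]
  congr 1
  ext R
  simp only [mem_image, mem_filter, mem_powersetCard]
  constructor
  · rintro ⟨B, ⟨a, b⟩, rfl⟩
    have := card_sdiff_add_card_inter B A
    have := c.card B a
    exact ⟨⟨sdiff_subset_sdiff (c.sub B a) le_rfl, by omega⟩, B, a, rfl⟩
  · rintro ⟨⟨-, b⟩, B, a, rfl⟩
    have := card_sdiff_add_card_inter B A
    have := c.card B a
    exact ⟨B, ⟨a, by omega⟩, rfl⟩

theorem t1 {A : Finset V} (hA : A ∈ H) :
    ∑ X ∈ A.powersetCard 3, lk w H 1 X ≤ es w 2 A + es w 2 (S \ A) := by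
  rw [c.s3 hA, c.out hA 3 2 rfl]
  refine add_le_add le_rfl (sum_le_sum fun R hR => ?_)
  split_ifs
  exacts [le_rfl, W_nonneg c.nn ((mem_powersetCard.1 hR).1.trans sdiff_subset)]

/-- Eight points carry at most four members. -/
theorem eight {A B : Finset V} (hA : A ∈ H) (hB : B ∈ H) (h3 : (B \ A).card = 3) :
    ∃ R ∈ (B \ A).powersetCard 2, ¬∃ C ∈ H, C \ A = R := by
  by_contra hc
  push Not at hc
  obtain ⟨t, ht, e⟩ : ∃ t : Fin 3 → V, Function.Injective t ∧ ∀ x, x ∈ B \ A ↔ ∃ i, t i = x := by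
    let f := (B \ A).equivFinOfCardEq h3
    exact ⟨fun i => f.symm i, Subtype.val_injective.comp f.symm.injective,
      fun x => ⟨fun hx => ⟨f ⟨x, hx⟩, by simp⟩, fun ⟨i, hi⟩ => hi ▸ (f.symm i).2⟩⟩
  have tm : ∀ i, t i ∈ B \ A := fun i => (e _).2 ⟨i, rfl⟩
  choose C hC eC using fun i => hc ((B \ A).erase (t i)) (mem_powersetCard.2
    ⟨erase_subset _ _, by rw [card_erase_of_mem (tm i), h3]⟩)
  have mC : ∀ i x, x ∉ A → (x ∈ C i ↔ x ≠ t i ∧ x ∈ B) := fun i x hx => by
    have := Finset.ext_iff.1 (eC i) x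
    simp only [mem_sdiff, mem_erase] at this
    tauto
  have tC : ∀ i j, t i ∈ C j ↔ i ≠ j := fun i j => by
    rw [mC j _ (mem_sdiff.1 (tm i)).2, ht.ne_iff]
    simp [(mem_sdiff.1 (tm i)).1]
  have cQ : ∀ i, (A \ C i).card = 2 := fun i => by
    rw [card_sdiff_comm ((c.card A hA).trans (c.card _ (hC i)).symm), eC,
      card_erase_of_mem (tm i), h3]
  have hQ : ∀ i, ∃ a x, a ∈ B ∧ x ∉ B ∧ ∀ y, y ∈ A ∧ y ∉ C i ↔ y = a ∨ y = x := fun i => by
    obtain ⟨a, x, -, h⟩ := card_eq_two.1 (cQ i)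
    have h' : ∀ y, y ∈ A ∧ y ∉ C i ↔ y = a ∨ y = x := fun y => by
      simpa using Finset.ext_iff.1 h y
    by_cases p : a ∈ B <;> by_cases q : x ∈ B
    · have : A = C i := c.canc B hB A hA _ (hC i) (Finset.ext fun y => by
        have a1 := h' y
        have a2 := mC i y
        simp only [mem_sdiff]
        by_cases y1 : y = a
        · simp [y1, p]
        by_cases y2 : y = x
        · simp [y2, q]
        tauto)
      exact absurd (this ▸ ((h' a).2 (Or.inl rfl)).1) ((h' a).2 (Or.inl rfl)).2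
    · exact ⟨a, x, p, q, h'⟩
    · exact ⟨x, a, q, p, fun y => (h' y).trans or_comm⟩
    · have : B = C i := c.eq_of_le hB (hC i) ((card_le_card (t := {t i}) fun y hy => by
        have a1 := h' y
        have a2 := mC i y
        simp only [mem_sdiff, mem_singleton] at hy ⊢
        by_cases y1 : y = a
        · exact absurd (y1 ▸ hy.1) p
        by_cases y2 : y = x
        · exact absurd (y2 ▸ hy.1) q
        tauto).trans (by simp))
      exact absurd ((tC i i).1 (this ▸ (mem_sdiff.1 (tm i)).1)) (by simp)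
  choose a x ha hx hq using hQ
  have c2 : (B ∩ A).card = 2 := by
    have := card_sdiff_add_card_inter B A
    have := c.card B hB
    omega
  obtain ⟨p, p', -, hP⟩ := card_eq_two.1 c2
  refine three (P := fun y => y ∈ B ∩ A) (p := p) (p' := p') (a := a) (x := x)
    (fun y hy => by simpa [hP] using hy)
    (fun i => mem_inter.2 ⟨ha i, ((hq i _).2 (Or.inl rfl)).1⟩) (fun i j k p1 p2 p3 => ?_)
    fun i j p1 => ?_
  · by_contra hn
    push Not at hn
    have : C i = C j := c.canc _ (hC k) _ (hC i) _ (hC j) (Finset.ext fun y => by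
      simp only [mem_sdiff]
      refine and_congr_left fun yk => ?_
      by_cases yA : y ∈ A
      · have a1 := hq i y
        have a2 := hq j y
        rcases (hq k y).1 ⟨yA, yk⟩ with y1 | y1
        · have b1 : y ≠ x i := fun z => hx i (z ▸ y1 ▸ ha k)
          have b2 : y ≠ x j := fun z => hx j (z ▸ y1 ▸ ha k)
          rw [p3] at a1
          tauto
        · have b1 : y ≠ a i := fun z => hx k (y1 ▸ z ▸ ha i)
          have b2 : y ≠ a j := p3 ▸ b1
          by_cases z : x i = x j
          · rw [z] at a1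
            tauto
          · have b3 := hn.1 z
            rw [← y1] at b3
            tauto
      · have a1 := mC i y yA
        have a2 := mC j y yA
        have b1 : y ≠ t i := fun z => yk (z ▸ (tC i k).2 p1)
        have b2 : y ≠ t j := fun z => yk (z ▸ (tC j k).2 p2)
        tauto)
    exact (tC i i).1 (this ▸ (tC i j).2 hn.2) rfl
  · by_contra hn
    have p2 : i ≠ j := fun z => hn (z ▸ rfl)
    have : C i = B := c.canc _ (hC j) _ (hC i) _ hB (Finset.ext fun y => by
      simp only [mem_sdiff]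
      refine and_congr_left fun yk => ?_
      by_cases yA : y ∈ A
      · have a1 := hq i y
        rcases (hq j y).1 ⟨yA, yk⟩ with y1 | y1
        · have b1 : y ≠ x i := fun z => hx i (z ▸ y1 ▸ ha j)
          have b2 : y ≠ a i := fun z => hn (z.symm.trans y1)
          have b3 : y ∈ B := y1 ▸ ha j
          tauto
        · have b1 : y = x i := y1.trans p1.symm
          have b3 : y ∉ B := y1 ▸ hx j
          tauto
      · have a1 := mC i y yA
        have b1 : y ≠ t i := fun z => yk (z ▸ (tC i j).2 p2)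
        tauto)
    exact (tC i i).1 (this ▸ (mem_sdiff.1 (tm i)).1) rfl

end Cov

end Pool.Agent.MP_6574cc_co.H3
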