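import Mathlib

/-! The inequalities between the moments are contradictory. -/

set_option autoImplicit false

namespace Pool.Agent.MP_6574cc_co.H3

/-- What is known on the moments; `U a` says that all weights are at most `a`. -/
structure Mom (x m q p r t : ℝ) (U : ℝ → Prop) : Prop where
  hx : 1 / 3125 ≤ x
  u5 : U (1 / 5)
  ub : ∀ a c, c ≤ a → q - 2 * c + c ^ 2 * m ≤ (a - c) ^ 2 → U a
  p0 : 0 ≤ p
  q5 : q ≤ 1 / 5
  p5 : p ≤ q / 5
  r5 : r ≤ p / 5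
  g0 : ∀ c, 0 ≤ q - 2 * c + c ^ 2 * m
  g1 : ∀ a c, U a → 0 ≤ -p + (a + 2 * c) * q - (2 * a * c + c ^ 2) + a * c ^ 2 * m
  g2 : ∀ a c, 0 ≤ r - 2 * (a + c) * p + (a ^ 2 + 4 * a * c + c ^ 2) * q - 2 * a * c * (a + c) +
    a ^ 2 * c ^ 2 * m
  g3 : ∀ a c, U a → 0 ≤ -t + (a + 2 * c) * r - (2 * a * c + c ^ 2) * p + a * c ^ 2 * q
  b4 : 120 * x * m ≤ 1 - 6 * q + 3 * q ^ 2 + 8 * p - 6 * r
  t1 : ∀ l, 20 * l * x - l ^ 2 * ((1 - 3 * q + 2 * p) / 6) ≤
    x * ((1 - 11 * q + 10 * p + 40 * q ^ 2) / 2)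
  t2 : ∀ c l₂ l a k μ : ℝ, 0 ≤ c → c < 1 / 10 → q - c + (m - 5) * c ^ 2 ≤ 1 / 20 →
    2 * a * k = 1 → 0 ≤ a → 2 - 40 / 3 * q ≤ a →
    20 * l₂ * x - l₂ ^ 2 * ((1 - q) / 2) + (20 * l * x * (1 - 10 * q) -
      l ^ 2 * ((1 - 3 * q + 2 * p) / 6 - 2 * (q * (1 - q) / 2 - p + r) - x * (80 + 240 * q))) ≤
    x * (1 / 2 - 9 * q + 115 / 2 * q ^ 2 - 500 / 3 * q ^ 3 + 6 * p - 25 * q * p - 10 / 3 * r +
      5 * a * (p - 2 * k * r + k ^ 2 * t - 2 * μ * (q - k * p) + μ ^ 2))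

theorem fin {x a b : ℝ} (hx : 1 / 3125 ≤ x) (h : a * x ≤ b) (hb : 0 ≤ b) (h' : 3125 * b < a) :
    False := by
  nlinarith [mul_le_mul_of_nonneg_left hx (show 0 ≤ a by linarith)]

theorem bern {q a b : ℝ} (h1 : a ≤ q) (h2 : q ≤ b) : 0 ≤ (b - q) ^ 3 ∧ 0 ≤ (b - q) ^ 2 * (q - a) ∧
    0 ≤ (b - q) * (q - a) ^ 2 ∧ 0 ≤ (q - a) ^ 3 := by
  have := sub_nonneg.2 h1
  have := sub_nonneg.2 h2
  refine ⟨by positivity, by positivity, by positivity, by positivity⟩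

namespace Mom

variable {x m q p r t : ℝ} {U : ℝ → Prop} (c : Mom x m q p r t U)

include c

theorem use1 (l : ℝ) (h : 3125 * (l ^ 2 * ((1 - 3 * q + 2 * p) / 6)) <
    20 * l - (1 - 11 * q + 10 * p + 40 * q ^ 2) / 2) : False :=
  fin c.hx (by linarith [c.t1 l]) (mul_nonneg (sq_nonneg l) (by linarith [c.p0, c.q5])) h

theorem use2 (d l₂ l a k μ : ℝ) (h0 : 0 ≤ q) (hq : q ≤ 1 / 10) (h1 : 0 ≤ d) (h2 : d < 1 / 10)
    (h3 : q - d + (m - 5) * d ^ 2 ≤ 1 / 20) (h4 : 2 * a * k = 1) (h5 : 0 ≤ a)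
    (h6 : 2 - 40 / 3 * q ≤ a)
    (h : 3125 * (l₂ ^ 2 * ((1 - q) / 2) +
        l ^ 2 * ((1 - 3 * q + 2 * p) / 6 - 2 * (q * (1 - q) / 2 - p + r))) <
      20 * l₂ + 20 * l * (1 - 10 * q) + l ^ 2 * (80 + 240 * q) -
      (1 / 2 - 9 * q + 115 / 2 * q ^ 2 - 500 / 3 * q ^ 3 + 6 * p - 25 * q * p - 10 / 3 * r +
        5 * a * (p - 2 * k * r + k ^ 2 * t - 2 * μ * (q - k * p) + μ ^ 2))) : False :=
  fin c.hx (by linarith [c.t2 d l₂ l a k μ h1 h2 h3 h4 h5 h6])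
    (add_nonneg (mul_nonneg (sq_nonneg l₂) (by linarith)) (mul_nonneg (sq_nonneg l)
      (by linarith [c.p0, c.r5, mul_nonneg h0 h0]))) h

theorem use4 (hm : 0 ≤ m) (h : 1 - 6 * q + 3 * q ^ 2 + 8 * p - 6 * r < 24 / 625 * m) : False := by
  linarith [c.b4, mul_le_mul_of_nonneg_right c.hx hm]

theorem big (h : 0.095 ≤ q) : q = 1 / 5 := by
  refine c.q5.eq_or_lt.elim id fun h' => (c.use1 (0.012 + 0.14 * q) ?_).elim
  obtain ⟨b0, b1, b2, b3⟩ := bern h c.q5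
  have a0 := sub_nonneg.2 c.p5
  have q0 : 0 ≤ q := by linarith
  have a1 := mul_nonneg a0 q0
  have a2 := mul_nonneg a1 q0
  linarith

theorem le14 (hm : m ≤ 14) (h : q ≤ 0.095) : False := by
  have q0 : 1 / 14 ≤ q := by linarith [c.g0 (1 / 14)]
  obtain ⟨b0, b1, b2, b3⟩ := bern q0 h
  have g1 := c.g1 _ (1 / 14) c.u5
  exact c.use1 0.024 (by linarith)

theorem ge19 (hm : 19 ≤ m) (h : q ≤ 0.095) : False := by
  have g0 := c.g0 (1 / 19)
  have g1 := c.g1 _ (1 / 19) c.u5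
  have g2 := c.g2 (1 / 5) (1 / 19)
  have q0 : 0 ≤ q := by linarith [c.p0, c.p5]
  have := mul_nonneg q0 (sub_nonneg.2 h)
  exact c.use4 (by linarith) (by linarith)

theorem eq15 (hm : m = 15) (h : q ≤ 0.095) : False := by
  subst hm
  rcases le_total q 0.072 with h1 | h1
  · have q0 : 1 / 15 ≤ q := by linarith [c.g0 (1 / 15)]
    obtain ⟨b0, b1, b2, b3⟩ := bern q0 h1
    have u := c.ub 0.138 0.0616 (by norm_num) (by linarith)
    have g1 := c.g1 _ 0.0616 u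
    have g2 := c.g2 0.138 0.0616
    have g3 := c.g3 _ 0.0616 u
    have g4 := mul_nonneg g1 (sub_nonneg.2 q0)
    have g5 := mul_nonneg g1 (sub_nonneg.2 h1)
    exact c.use2 (1 / 20) 0.0068 0.02 1.25 0.4 0.07 (by linarith) (by linarith) (by norm_num)
      (by norm_num) (by linarith) (by norm_num) (by norm_num) (by linarith) (by linarith)
  · obtain ⟨b0, b1, b2, b3⟩ := bern h1 h
    have g1 := c.g1 _ 0.064 c.u5
    exact c.use1 0.024 (by linarith)

theorem eq16 (hm : m = 16) (h : q ≤ 0.095) : False := by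
  subst hm
  rcases le_total q 0.0725 with h1 | h1
  · have q0 : 1 / 16 ≤ q := by linarith [c.g0 (1 / 16)]
    obtain ⟨b0, b1, b2, b3⟩ := bern q0 h1
    have u := c.ub 0.16 0.056 (by norm_num) (by linarith)
    have g1 := c.g1 _ 0.056 u
    have g2 := c.g2 0.16 0.056
    have g3 := c.g3 _ 0.056 u
    have g4 := mul_nonneg g1 (sub_nonneg.2 q0)
    have g5 := mul_nonneg g1 (sub_nonneg.2 h1)
    exact c.use2 (1 / 22) 0.007 0.019 1.25 0.4 0.07 (by linarith) (by linarith) (by norm_num)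
      (by norm_num) (by linarith) (by norm_num) (by norm_num) (by linarith) (by linarith)
  rcases le_total q 0.076 with h2 | h2
  · obtain ⟨b0, b1, b2, b3⟩ := bern h1 h2
    have g1 := c.g1 _ 0.057 (c.ub 0.175 0.055 (by norm_num) (by linarith))
    exact c.use1 0.024 (by linarith)
  · obtain ⟨b0, b1, b2, b3⟩ := bern h2 h
    have g1 := c.g1 _ 0.056 c.u5
    exact c.use1 0.0245 (by linarith)

theorem eq17 (hm : m = 17) (h : q ≤ 0.095) : False := by
  subst hm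
  rcases le_total q 0.068 with h1 | h1
  · have q0 : 1 / 17 ≤ q := by linarith [c.g0 (1 / 17)]
    obtain ⟨b0, b1, b2, b3⟩ := bern q0 h1
    have u := c.ub 0.152 0.053 (by norm_num) (by linarith)
    have g1 := c.g1 _ 0.053 u
    have g2 := c.g2 0.152 0.053
    have g3 := c.g3 _ 0.053 u
    have g4 := mul_nonneg g1 (sub_nonneg.2 q0)
    have g5 := mul_nonneg g1 (sub_nonneg.2 h1)
    exact c.use2 (1 / 24) 0.0068 0.02 1.25 0.4 0.066 (by linarith) (by linarith) (by norm_num)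
      (by norm_num) (by linarith) (by norm_num) (by norm_num) (by linarith) (by linarith)
  · obtain ⟨b0, b1, b2, b3⟩ := bern h1 h
    have g1 := c.g1 _ 0.0545 c.u5
    have g2 := c.g2 (1 / 5) 0.0545
    exact c.use4 (by norm_num) (by linarith)

theorem eq18 (hm : m = 18) (h : q ≤ 0.095) : False := by
  subst hm
  rcases le_total q 0.059 with h1 | h1
  · have q0 : 1 / 18 ≤ q := by linarith [c.g0 (1 / 18)]
    obtain ⟨b0, b1, b2, b3⟩ := bern q0 h1
    have u := c.ub 0.113 0.0522 (by norm_num) (by linarith)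
    have g1 := c.g1 _ 0.052 u
    have g2 := c.g2 0.113 0.052
    have g3 := c.g3 _ 0.052 u
    have g4 := mul_nonneg g1 (sub_nonneg.2 q0)
    have g5 := mul_nonneg g1 (sub_nonneg.2 h1)
    exact c.use2 (1 / 26) 0.0068 0.022 (4 / 3) 0.375 0.058 (by linarith) (by linarith)
      (by norm_num) (by norm_num) (by linarith) (by norm_num) (by norm_num) (by linarith)
      (by linarith)
  · obtain ⟨b0, b1, b2, b3⟩ := bern h1 h
    have g1 := c.g1 _ 0.0535 c.u5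
    have g2 := c.g2 (1 / 5) 0.0535
    exact c.use4 (by norm_num) (by linarith)

end Mom

theorem Mom.num {x q p r t : ℝ} {m : ℕ} {U : ℝ → Prop} (c : Mom x m q p r t U) : q = 1 / 5 := by
  refine (le_total q 0.095).elim (fun h => False.elim ?_) c.big
  rcases Nat.lt_or_ge m 15 with h1 | h1
  · exact c.le14 (by exact_mod_cast Nat.le_of_lt_succ h1) h
  rcases Nat.lt_or_ge m 19 with h2 | h2
  · interval_cases m
    exacts [c.eq15 (by norm_num) h, c.eq16 (by norm_num) h, c.eq17 (by norm_num) h,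
      c.eq18 (by norm_num) h]
  · exact c.ge19 (by exact_mod_cast h2) h

end Pool.Agent.MP_6574cc_co.H3
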