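import Pool.Agent.MP_6574cc_co.H3.Avg
import Pool.Agent.MP_6574cc_co.H3.Num

/-! An optimal weighting of large value is uniform on five points. -/

set_option autoImplicit false

namespace Pool.Agent.MP_6574cc_co.H3

open Finset

variable {V : Type} [DecidableEq V]

namespace Opt

variable {S : Finset V} {H : Finset (Finset V)} {w : V → ℝ} (c : Opt S H w)

include c

theorem poly (a₀ a₁ a₂ a₃ a₄ a₅ : ℝ) :
    ∑ v ∈ S, (a₀ + a₁ * w v ^ 1 + a₂ * w v ^ 2 + a₃ * w v ^ 3 + a₄ * w v ^ 4 + a₅ * w v ^ 5) =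
      a₀ * S.card + a₁ + a₂ * ps w 2 S + a₃ * ps w 3 S + a₄ * ps w 4 S + a₅ * ps w 5 S := by
  have := c.sum
  simp only [sum_add_distrib, ← mul_sum, sum_const, nsmul_eq_mul, ps] at this ⊢
  rw [this]
  ring

theorem pn (a₀ a₁ a₂ a₃ a₄ a₅ : ℝ) (h : ∀ v ∈ S,
    0 ≤ a₀ + a₁ * w v ^ 1 + a₂ * w v ^ 2 + a₃ * w v ^ 3 + a₄ * w v ^ 4 + a₅ * w v ^ 5) :
    0 ≤ a₀ * S.card + a₁ + a₂ * ps w 2 S + a₃ * ps w 3 S + a₄ * ps w 4 S + a₅ * ps w 5 S :=
  c.poly a₀ a₁ a₂ a₃ a₄ a₅ ▸ sum_nonneg h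

theorem half {d : ℝ} (h0 : 0 ≤ d) (h1 : d < 1 / 10)
    (h : ps w 2 S - d + (S.card - 5) * d ^ 2 ≤ 1 / 20) (X : Finset V) (hX : X ⊆ S)
    (h5 : X.card ≤ 5) : ps w 1 X ≤ 1 / 2 := by
  have key : ∀ (Y : Finset V) (e : ℝ), 0 ≤ ps w 2 Y - 2 * e * ps w 1 Y + Y.card * e ^ 2 :=
    fun Y e => by
      have : ∑ v ∈ Y, (w v - e) ^ 2 = ps w 2 Y - 2 * e * ps w 1 Y + Y.card * e ^ 2 := by
        simp only [ps, mul_sum, ← nsmul_eq_mul, ← sum_const, ← sum_sub_distrib, ← sum_add_distrib]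
        exact sum_congr rfl fun v _ => by ring
      exact this ▸ sum_nonneg fun v _ => sq_nonneg _
  have a := key X (1 / 10)
  have b := key (S \ X) d
  rw [ps_sdiff w hX, ps_sdiff w hX, c.sum, card_sdiff_of_subset hX,
    Nat.cast_sub (card_le_card hX)] at b
  have e : (X.card : ℝ) ≤ 5 := by exact_mod_cast h5
  have f := mul_nonneg (sub_nonneg.2 e) (show 0 ≤ (1 / 10) ^ 2 - d ^ 2 by nlinarith)
  refine le_of_mul_le_mul_left ?_ (sub_pos.2 h1)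
  linarith

theorem toMom (h : 1 / 3125 ≤ lam H w) : Mom (lam H w) S.card (ps w 2 S) (ps w 3 S) (ps w 4 S)
    (ps w 5 S) fun a => ∀ v ∈ S, w v ≤ a := by
  have u5 : ∀ v ∈ S, w v ≤ 1 / 5 := fun v hv => c.le5 (by linarith) hv
  have st : ∀ v ∈ S, ∀ j : ℕ, 0 ≤ w v ^ j * (1 / 5 - w v) := fun v hv j =>
    mul_nonneg (pow_nonneg (c.nn v hv) j) (sub_nonneg.2 (u5 v hv))
  refine ⟨h, u5, fun a d h1 h2 v hv => ?_, ps_nonneg c.nn le_rfl 3, ?_, ?_, ?_, fun d => ?_,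
    fun a d ha => ?_, fun a d => ?_, fun a d ha => ?_, c.hb4, c.ht1,
    fun d l₂ l a k μ h1 h2 h3 => c.ht2 (c.half h1 h2 h3) l₂ l a k μ⟩
  · have a1 := single_le_sum (f := fun v => d ^ 2 + -2 * d * w v ^ 1 + 1 * w v ^ 2 + 0 * w v ^ 3 +
      0 * w v ^ 4 + 0 * w v ^ 5) (fun u _ => by nlinarith [sq_nonneg (w u - d)]) hv
    rw [c.poly] at a1
    by_contra hc
    nlinarith
  · linarith [c.pn 0 (1 / 5) (-1) 0 0 0 fun v hv => by linarith [st v hv 1]]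
  · linarith [c.pn 0 0 (1 / 5) (-1) 0 0 fun v hv => by linarith [st v hv 2]]
  · linarith [c.pn 0 0 0 (1 / 5) (-1) 0 fun v hv => by linarith [st v hv 3]]
  · linarith [c.pn (d ^ 2) (-2 * d) 1 0 0 0 fun v _ => by linarith [sq_nonneg (w v - d)]]
  · linarith [c.pn (a * d ^ 2) (-(2 * a * d + d ^ 2)) (a + 2 * d) (-1) 0 0 fun v hv => by
      linarith [mul_nonneg (sq_nonneg (w v - d)) (sub_nonneg.2 (ha v hv))]]
  · linarith [c.pn (a ^ 2 * d ^ 2) (-(2 * a * d * (a + d))) (a ^ 2 + 4 * a * d + d ^ 2)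
      (-(2 * (a + d))) 1 0 fun v _ => by linarith [sq_nonneg ((w v - d) * (a - w v))]]
  · linarith [c.pn 0 0 (a * d ^ 2) (-(2 * a * d + d ^ 2)) (a + 2 * d) (-1) fun v hv => by
      linarith [mul_nonneg (sq_nonneg (w v * (w v - d))) (sub_nonneg.2 (ha v hv))]]

theorem core (h : 1 / 3125 ≤ lam H w) : S ∈ H ∧ (∀ v ∈ S, w v = 1 / 5) ∧ lam H w = 1 / 3125 := by
  have m := c.toMom h
  have q := m.num
  have e1 : ∀ v ∈ S, w v = 1 / 5 := by
    have a1 := c.poly 0 (1 / 5) (-1) 0 0 0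
    rw [q] at a1
    have a2 := (sum_eq_zero_iff_of_nonneg fun v hv => by
      nlinarith [mul_nonneg (c.nn v hv) (sub_nonneg.2 (m.u5 v hv))]).1 (a1.trans (by norm_num))
    intro v hv
    have := a2 v hv
    nlinarith [c.pos v hv, m.u5 v hv]
  have e2 : S.card = 5 := by
    have a1 := c.sum
    rw [ps, sum_congr rfl fun v hv => by rw [e1 v hv], sum_const, nsmul_eq_mul] at a1
    have : (S.card : ℝ) = 5 := by linarith
    exact_mod_cast this
  have e3 : ∀ A ∈ H, A = S := fun A hA =>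
    eq_of_subset_of_card_le (c.sub A hA) (e2.trans (c.card A hA).symm).le
  rcases subset_singleton_iff.1 (show H ⊆ {S} from fun A hA => mem_singleton.2 (e3 A hA)) with
    e | e
  · rw [e, lam, sum_empty] at h
    norm_num at h
  · refine ⟨e ▸ mem_singleton_self S, e1, ?_⟩
    rw [e, lam, sum_singleton, W, prod_congr rfl e1, prod_const, e2]
    norm_num

end Opt

end Pool.Agent.MP_6574cc_co.H3
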