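import Pool.Agent.MP_6574cc_co.H3.Stab

/-! Integer weightings. -/

set_option autoImplicit false

namespace Pool.Agent.MP_6574cc_co.H3

open Finset

/-- the size of the balanced complete five partite family -/
def p5 (n : ℕ) : ℕ := ∏ i ∈ range 5, (n + i) / 5

theorem chord (a k : ℕ) (ha : 0 < a) : (k : ℝ) * (1 + 1 / a) ^ a ≤ a * (1 + 1 / a) ^ k := by
  have a0 : (0 : ℝ) < a := by exact_mod_cast ha
  have r0 : (0 : ℝ) < 1 + 1 / a := by positivity
  rcases le_total a k with h | h
  · obtain ⟨d, rfl⟩ := Nat.exists_eq_add_of_le h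
    have b := one_add_mul_le_pow (a := (1 / a : ℝ)) (by linarith [one_div_pos.2 a0]) d
    rw [pow_add, mul_comm ((1 + 1 / a : ℝ) ^ a), ← mul_assoc]
    refine mul_le_mul_of_nonneg_right ?_ (by positivity)
    refine le_trans (le_of_eq ?_) (mul_le_mul_of_nonneg_left b a0.le)
    push_cast
    field_simp
  · obtain ⟨d, hd⟩ := Nat.exists_eq_add_of_le h
    have e : (a : ℝ) = k + d := by exact_mod_cast hd
    have b := one_add_mul_le_pow (a := (-(1 / (a + 1)) : ℝ)) (by
      have : (1 / (a + 1) : ℝ) ≤ 1 := by rw [div_le_one (by positivity)]; linarith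
      linarith) d
    have f : (1 + -(1 / (a + 1)) : ℝ) ^ d * (1 + 1 / a) ^ d = 1 := by
      rw [← mul_pow, show (1 + -(1 / (a + 1)) : ℝ) * (1 + 1 / a) = 1 by field_simp; ring, one_pow]
    have g : (k : ℝ) ≤ a * (1 + d * -(1 / (a + 1))) := by
      have : (a : ℝ) * (1 / (a + 1)) ≤ 1 := by
        rw [mul_one_div, div_le_one (by positivity)]; linarith
      nlinarith [mul_le_mul_of_nonneg_left this (Nat.cast_nonneg (α := ℝ) d)]
    rw [show (1 + 1 / a : ℝ) ^ a = (1 + 1 / a) ^ d * (1 + 1 / a) ^ k by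
      rw [← pow_add, add_comm d, ← hd], ← mul_assoc]
    refine mul_le_mul_of_nonneg_right ?_ (by positivity)
    calc _ ≤ a * (1 + -(1 / (a + 1)) : ℝ) ^ d * (1 + 1 / a) ^ d := mul_le_mul_of_nonneg_right
          (g.trans (mul_le_mul_of_nonneg_left b a0.le)) (by positivity)
      _ = a := by rw [mul_assoc, f, mul_one]

theorem p5_eq (a j : ℕ) (ha : 0 < a) (hj : j < 5) :
    (p5 (5 * a + j) : ℝ) = a ^ 5 * (1 + 1 / a) ^ j := by
  have a0 : (a : ℝ) ≠ 0 := by positivity
  have e : ∀ i, (5 * a + j + i) / 5 = a + (j + i) / 5 := fun i => by omega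
  simp only [p5, e, prod_range_succ, prod_range_zero]
  interval_cases j <;> norm_num <;> field_simp

theorem p5_ge (n : ℕ) (h : 5 ≤ n) : (n : ℝ) ^ 5 - 20 * n ^ 4 ≤ 3125 * p5 n := by
  obtain ⟨a, j, hj, rfl⟩ : ∃ a j, j < 5 ∧ n = 5 * a + j := ⟨n / 5, n % 5, by omega, by omega⟩
  have a0 : (1 : ℝ) ≤ a := by exact_mod_cast (by omega : 1 ≤ a)
  have j4 : (j : ℝ) ≤ 4 := by exact_mod_cast (by omega : j ≤ 4)
  have j0 : (0 : ℝ) ≤ j := by positivity
  have n0 : (0 : ℝ) < 5 * a + j := by linarith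
  have b := one_add_mul_le_pow (a := (-(j / (5 * a + j)) : ℝ)) (by
    have : (j / (5 * a + j) : ℝ) ≤ 1 := by rw [div_le_one n0]; linarith
    linarith) 5
  have c := mul_le_mul_of_nonneg_left b (pow_pos n0 5).le
  rw [← mul_pow, show (5 * a + j : ℝ) * (1 + -(j / (5 * a + j))) = 5 * a by field_simp; ring,
    show (5 * a + j : ℝ) ^ 5 * (1 + (5 : ℕ) * -(j / (5 * a + j))) =
      (5 * a + j) ^ 5 - 5 * j * (5 * a + j) ^ 4 by push_cast; field_simp; ring] at c
  have d : (1 : ℝ) ≤ (1 + 1 / a) ^ j := one_le_pow₀ (le_add_of_nonneg_right (by positivity))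
  rw [p5_eq a j (by omega) hj]
  push_cast
  nlinarith [mul_le_mul_of_nonneg_left d (pow_nonneg (show (0 : ℝ) ≤ a by linarith) 5),
    mul_le_mul_of_nonneg_right j4 (pow_pos n0 4).le]

variable {V : Type} [DecidableEq V]

omit [DecidableEq V] in
theorem W_le {S : Finset V} (h : S.card = 5) {w : V → ℝ} (hw : ∀ v, ∃ k : ℕ, w v = k) {n : ℕ}
    (hn : 5 ≤ n) (hs : ∑ v ∈ S, w v = n) : W w S ≤ p5 n := by
  choose k hk using hw
  obtain rfl : w = fun v => (k v : ℝ) := funext hk
  obtain ⟨a, j, hj, rfl⟩ : ∃ a j, j < 5 ∧ n = 5 * a + j := ⟨n / 5, n % 5, by omega, by omega⟩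
  have ha : 0 < a := by omega
  have b := prod_le_prod (s := S) (fun v _ => by positivity) fun v _ => chord a (k v) ha
  have e : ∑ v ∈ S, k v = 5 * a + j := Nat.cast_injective (R := ℝ) (by rw [← hs, Nat.cast_sum])
  rw [prod_mul_distrib, prod_mul_distrib, prod_const, prod_const, prod_pow_eq_pow_sum, e, h,
    ← pow_mul, pow_add, mul_comm 5 a, mul_comm (_ ^ (a * 5)), ← mul_assoc] at b
  rw [p5_eq a j ha hj]
  exact le_of_mul_le_mul_right b (by positivity)

theorem es_le {w : V → ℝ} (hw : ∀ v, 0 ≤ w v) (S : Finset V) (k : ℕ) : es w k S ≤ ps w 1 S ^ k := by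
  induction S using Finset.induction_on generalizing k with
  | empty =>
    cases k with
    | zero => simp [es_zero]
    | succ k => simp [es, ps, powersetCard_eq_empty.2 (show (∅ : Finset V).card < k + 1 by simp)]
  | insert a S h ih =>
    cases k with
    | zero => simp [es_zero]
    | succ k =>
      have p : 0 ≤ ps w 1 S := ps_nonneg (fun v _ => hw v) le_rfl 1
      have q := pow_le_pow_left₀ p (le_add_of_nonneg_left (hw a)) k
      rw [es_insert w h, ps_insert w h, pow_one, pow_succ]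
      nlinarith [ih k, ih (k + 1), mul_le_mul_of_nonneg_left (ih k) (hw a), pow_succ (ps w 1 S) k,
        mul_le_mul_of_nonneg_right q (add_nonneg (hw a) p)]

/-- move one unit of weight from `u` to `v` -/
def sh (w : V → ℝ) (u v : V) : V → ℝ := fun x =>
  w x + (if x = v then 1 else 0) - if x = u then 1 else 0

theorem W_sh (w : V → ℝ) {u v : V} (h : u ≠ v) (A : Finset V) :
    W (sh w u v) A = W w A + (if v ∈ A then W w (A.erase v) else 0) -
      (if u ∈ A then W w (A.erase u) else 0) -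
      if u ∈ A ∧ v ∈ A then W w ((A.erase u).erase v) else 0 := by
  have e : ∀ B : Finset V, u ∉ B → v ∉ B → W (sh w u v) B = W w B := fun B p q =>
    prod_congr rfl fun x hx => by
      rw [sh, if_neg fun (e : x = v) => q (e ▸ hx), if_neg fun (e : x = u) => p (e ▸ hx)]; ring
  have m : ∀ (y : V → ℝ) (B : Finset V) (x : V), x ∈ B → W y B = y x * W y (B.erase x) :=
    fun y B x hx => (mul_prod_erase B y hx).symm
  by_cases hu : u ∈ A <;> by_cases hv : v ∈ A <;>
    simp only [hu, hv, if_true, if_false, and_self, and_true, and_false]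
  · have v1 : v ∈ A.erase u := mem_erase.2 ⟨h.symm, hv⟩
    rw [m _ A u hu, m _ _ v v1, e _ (by simp) (by simp), m w A u hu,
      m w (A.erase v) u (mem_erase.2 ⟨h, hu⟩), m w _ v v1, erase_right_comm (a := v)]
    simp only [sh, h, h.symm, if_true, if_false]
    ring
  · rw [m _ A u hu, e _ (by simp) (by simp [hv]), m w A u hu]
    simp only [sh, h, if_true, if_false]
    ring
  · rw [m _ A v hv, e _ (by simp [hu]) (by simp), m w A v hv]
    simp only [sh, h.symm, if_true, if_false]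
    ring
  · rw [e A hu hv]
    ring

theorem pair_le {S : Finset V} {H : Finset (Finset V)} (hS : ∀ A ∈ H, A ⊆ S)
    (h5 : ∀ A ∈ H, A.card = 5) {w : V → ℝ} (hw : ∀ v, 0 ≤ w v) {u v : V} (h : u ≠ v) :
    (∑ A ∈ H, if u ∈ A ∧ v ∈ A then W w ((A.erase u).erase v) else 0) ≤ ps w 1 S ^ 3 := by
  refine le_trans ?_ (es_le hw S 3)
  rw [← sum_filter, ← sum_image (s := H.filter fun A => u ∈ A ∧ v ∈ A)
    (g := fun A : Finset V => (A.erase u).erase v) (f := W w) fun A a B b e => by
    obtain ⟨-, a1, a2⟩ := mem_filter.1 (mem_coe.1 a)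
    obtain ⟨-, b1, b2⟩ := mem_filter.1 (mem_coe.1 b)
    rw [← insert_erase a1, ← insert_erase b1, ← insert_erase (mem_erase.2 ⟨h.symm, a2⟩),
      ← insert_erase (mem_erase.2 ⟨h.symm, b2⟩)]
    exact congrArg (fun X => insert u (insert v X)) e]
  refine sum_le_sum_of_subset_of_nonneg (fun X hX => ?_) fun X _ _ => prod_nonneg fun v _ => hw v
  obtain ⟨A, hA, rfl⟩ := mem_image.1 hX
  obtain ⟨a, a1, a2⟩ := mem_filter.1 hA
  exact mem_powersetCard.2 ⟨((erase_subset _ _).trans (erase_subset _ _)).trans (hS A a), by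
    rw [card_erase_of_mem (mem_erase.2 ⟨h.symm, a2⟩), card_erase_of_mem a1, h5 A a]⟩

theorem sum_lv {S : Finset V} {H : Finset (Finset V)} (hS : ∀ A ∈ H, A ⊆ S) (w f : V → ℝ) :
    ∑ v ∈ S, f v * lv H w v = ∑ A ∈ H, ∑ v ∈ A, f v * W w (A.erase v) := by
  simp only [lv, mul_sum, mul_ite, mul_zero]
  rw [sum_comm]
  exact sum_congr rfl fun A hA => by rw [← sum_filter, filter_mem_eq_inter, inter_eq_right.2 (hS A hA)]

theorem large : ∃ n₀ : ℕ, 5 ≤ n₀ ∧ ∀ n : ℕ, n₀ ≤ n → ∀ (V : Type) [DecidableEq V] (S : Finset V)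
    (H : Finset (Finset V)) (w : V → ℝ), Cov S H w → 6 ≤ S.card → (∀ v, 0 ≤ w v) →
    ∑ v ∈ S, w v = n → (∀ u ∈ S, ∀ v ∈ S, u ≠ v → lam H (sh w u v) ≤ lam H w) →
    lam H w ≤ p5 n := by
  obtain ⟨ε, ε0, hε⟩ := gap_all
  obtain ⟨n₁, h₁⟩ := exists_nat_ge (1 / ε)
  refine ⟨max n₁ 2000, by omega, fun n hn V _ S H w c h6 w0 w1 hm => ?_⟩
  by_contra hc
  have n2 : (2000 : ℝ) ≤ n := by exact_mod_cast (le_max_right _ _).trans hn
  have n1 : 1 ≤ ε * n := by
    have : (n₁ : ℝ) ≤ n := by exact_mod_cast (le_max_left _ _).trans hn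
    rw [div_le_iff₀ ε0] at h₁
    nlinarith
  have n0 : (0 : ℝ) < n := by linarith
  have g := p5_ge n (by omega)
  have s1 : ps w 1 S = n := by simpa [ps] using w1
  have n3 := pow_pos n0 3
  have n4 := pow_pos n0 4
  have l1 : ∀ u ∈ S, (n : ℝ) ^ 4 / 1000 ≤ lv H w u := fun u hu => by
    have a : ∑ v ∈ S, w v * lv H w v ≤ ∑ v ∈ S, w v * (lv H w u + n ^ 3) :=
      sum_le_sum fun v hv => mul_le_mul_of_nonneg_left (by
        by_cases e : u = v
        · rw [e]; linarith
        have b := hm u hu v hv e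
        have d := pair_le c.sub c.card w0 e
        simp only [lam, W_sh w e, sum_sub_distrib, sum_add_distrib] at b
        rw [s1] at d
        rw [lv, lv]
        linarith) (w0 v)
    rw [← sum_mul, w1, sum_lv c.sub, sum_congr rfl (g := fun A => 5 * W w A) fun A hA => by
      rw [sum_congr rfl (f := fun v => w v * W w (A.erase v)) (g := fun _ => W w A)
        fun v hv => mul_prod_erase A w hv, sum_const,
        c.card A hA, nsmul_eq_mul]; norm_num, ← mul_sum, ← lam] at a
    refine le_of_mul_le_mul_left ?_ n0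
    nlinarith [mul_le_mul_of_nonneg_right n2 n4.le]
  have m1 : S.card ≤ 1000 := by
    have a := card_nsmul_le_sum S _ _ l1
    have b := sum_lv c.sub w 1
    have d := c.b4.trans (es_le w0 S 4)
    simp only [Pi.one_apply, one_mul] at b
    rw [b, nsmul_eq_mul] at a
    rw [s1] at d
    have : (S.card : ℝ) ≤ 1000 := le_of_mul_le_mul_right (by linarith) n4
    exact_mod_cast this
  have sc : ∀ A : Finset V, W (fun v => w v / n) A = W w A / n ^ A.card := fun A => by
    rw [W, prod_div_distrib, prod_const, W]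
  have := hε V S H c.sub ⟨c.card, c.canc⟩ (fun A a B b => c.eq_of_le a b) h6 m1 (fun v => w v / n)
    (fun v => div_nonneg (w0 v) n0.le) (by rw [← sum_div, w1, div_self n0.ne']) fun u hu => by
      have : lv H (fun v => w v / n) u = lv H w u / n ^ 4 := by
        rw [lv, lv, sum_div]
        refine sum_congr rfl fun A hA => ?_
        split_ifs with r
        · rw [sc, card_erase_of_mem r, c.card A hA]
        · simp
      rw [this, le_div_iff₀ n4]
      linarith [l1 u hu]
  rw [lam, sum_congr rfl fun A hA => by rw [sc, c.card A hA], ← sum_div, ← lam,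
    div_le_iff₀ (pow_pos n0 5)] at this
  nlinarith [mul_le_mul_of_nonneg_right n1 n4.le]

theorem exact : ∃ n₀ : ℕ, ∀ n : ℕ, n₀ ≤ n → ∀ (V : Type) [DecidableEq V] [Fintype V]
    (H : Finset (Finset V)), Can H → ∀ (S : Finset V), ∀ w ∈ Sim S n, (∀ v, ∃ k : ℕ, w v = k) →
    lam H w ≤ p5 n := by
  obtain ⟨n₀, n5, h₀⟩ := large
  refine ⟨n₀, fun n hn V _ _ H hH S => ?_⟩
  induction S using Finset.strongInduction with
  | H S ih =>
    intro x hx hx'
    have fin : {w | w ∈ Sim S n ∧ ∀ v, ∃ k : ℕ, w v = k}.Finite := by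
      refine (Set.Finite.pi' fun _ : V => (Set.finite_Iic n).image (Nat.cast : ℕ → ℝ)).subset
        fun w hw v => ?_
      obtain ⟨k, hk⟩ := hw.2 v
      refine ⟨k, ?_, hk.symm⟩
      by_cases hv : v ∈ S
      · have := (single_le_sum (fun u _ => hw.1.1 u) hv).trans hw.1.2.2.le
        rw [hk] at this
        exact_mod_cast this
      · have := hw.1.2.1 v hv
        rw [hk, Nat.cast_eq_zero] at this
        simp [this]
    obtain ⟨w, ⟨hw, hw'⟩, hm⟩ := Set.exists_max_image _ (lam H) fin ⟨x, hx, hx'⟩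
    refine le_trans (hm x ⟨hx, hx'⟩) ?_
    by_cases hp : ∀ v ∈ S, w v ≠ 0
    swap
    · push Not at hp
      obtain ⟨v, hv, e⟩ := hp
      exact ih _ (erase_ssubset hv) w (Sim.erase hw e) hw'
    by_cases hc : ∀ u ∈ S, ∀ v ∈ S, u ≠ v → ∃ A ∈ H.filter (· ⊆ S), u ∈ A ∧ v ∈ A
    swap
    · simp only [not_forall] at hc
      obtain ⟨u, hu, v, hv, h, hc⟩ := hc
      have i : ∀ a b y, ∃ k : ℕ, mv w a b y = k := fun a b y => by
        obtain ⟨k, hk⟩ := hw' a
        obtain ⟨l, hl⟩ := hw' b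
        unfold mv
        split_ifs
        exacts [⟨k + l, by rw [hk, hl, Nat.cast_add]⟩, ⟨0, by simp⟩, hw' y]
      have a := mul_le_mul_of_nonneg_left (ih _ (erase_ssubset hv) _ (Sim.mv hw hu hv h) (i u v))
        (hw.1 u)
      have b := mul_le_mul_of_nonneg_left (ih _ (erase_ssubset hu) _ (Sim.mv hw hv hu h.symm)
        (i v u)) (hw.1 v)
      refine le_of_mul_le_mul_left ?_ (add_pos ((hw.1 u).lt_of_ne' (hp u hu))
        ((hw.1 v).lt_of_ne' (hp v hv)))
      linarith [lam_mv hw h hc]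
    rw [← lam_filter hw]
    rcases Nat.lt_or_ge S.card 6 with h6 | h6
    · rcases subset_singleton_iff.1 (show H.filter (· ⊆ S) ⊆ {S} from fun A hA =>
        mem_singleton.2 (eq_of_subset_of_card_le (mem_filter.1 hA).2 (by
          rw [hH.card A (mem_filter.1 hA).1]; omega))) with e | e
      · rw [e, lam, sum_empty]
        positivity
      · rw [e, lam, sum_singleton]
        exact W_le (hH.card S (mem_filter.1 (e.ge (mem_singleton_self S))).1) hw' (by omega) hw.2.2
    refine h₀ n hn V S _ w ⟨fun A hA => (mem_filter.1 hA).2,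
      fun A hA => hH.card A (mem_filter.1 hA).1, fun A a B b C d =>
        hH.canc A (mem_filter.1 a).1 B (mem_filter.1 b).1 C (mem_filter.1 d).1, hc,
      fun v _ => hw.1 v⟩ h6 hw.1 hw.2.2 fun u hu v hv e => ?_
    have i : ∀ y, ∃ k : ℕ, sh w u v y = k := fun y => by
      obtain ⟨k, hk⟩ := hw' y
      by_cases p : y = u
      · obtain ⟨l, rfl⟩ := Nat.exists_eq_succ_of_ne_zero (n := k) fun q =>
          hp u hu (by rw [← p, hk, q, Nat.cast_zero])
        exact ⟨l, by rw [sh, hk, if_pos p, if_neg (p ▸ e)]; simp⟩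
      by_cases q : y = v
      · exact ⟨k + 1, by rw [sh, hk, if_pos q, if_neg p]; simp⟩
      · exact ⟨k, by rw [sh, hk, if_neg q, if_neg p]; simp⟩
    have j : sh w u v ∈ Sim S n := ⟨fun y => by obtain ⟨k, hk⟩ := i y; rw [hk]; positivity,
      fun y hy => by
        rw [sh, hw.2.1 y hy, if_neg fun (e : y = v) => hy (e ▸ hv),
          if_neg fun (e : y = u) => hy (e ▸ hu)]; simp, by
      simp only [sh, sum_sub_distrib, sum_add_distrib, sum_ite_eq', if_pos hu, if_pos hv, hw.2.2]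
      ring⟩
    rw [lam_filter j, lam_filter hw]
    exact hm _ ⟨j, i⟩

end Pool.Agent.MP_6574cc_co.H3
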