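import Pool.Agent.MP_6574cc_co.H3.Exact

/-! Cancellative families of five element sets. -/

set_option autoImplicit false

namespace Pool.Agent.MP_6574cc_co.H3

open Finset

theorem can_of {n : ℕ} {H : Finset (Finset (Fin n))} (h : H ⊆ powersetCard 5 univ)
    (hc : ∀ A ∈ H, ∀ B ∈ H, ∀ C ∈ H, A ∪ B = A ∪ C → B = C) : Can H :=
  ⟨fun A hA => (mem_powersetCard.1 (h hA)).2, fun A a B b C c e => hc A a B b C c (by
    rw [← union_sdiff_self_eq_union, e, union_sdiff_self_eq_union])⟩

theorem bound {n : ℕ} {H : Finset (Finset (Fin n))} (hH : Can H) : 3125 * H.card ≤ n ^ 5 := by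
  rcases Nat.eq_zero_or_pos n with rfl | hn
  · rw [eq_empty_of_forall_notMem (s := H) fun A hA => by
      have := hH.card A hA
      rw [eq_empty_of_isEmpty A] at this
      simp at this]
    simp
  have n0 : (0 : ℝ) < n := by exact_mod_cast hn
  have := hH.lag univ (fun _ => 1 / n) ⟨fun _ => by positivity, fun v hv => (hv (mem_univ v)).elim,
    by simp [n0.ne']⟩
  rw [lam, sum_congr rfl (g := fun _ => (1 / n : ℝ) ^ 5) fun A hA => by
    rw [W, prod_const, hH.card A hA], sum_const, nsmul_eq_mul, one_div_pow, mul_one_div,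
    div_le_iff₀ (pow_pos n0 5)] at this
  have h : (3125 * H.card : ℝ) ≤ n ^ 5 := by linarith
  exact_mod_cast h

theorem bound' : ∃ n₀ : ℕ, ∀ n : ℕ, n₀ ≤ n ∨ 5 ∣ n → ∀ H : Finset (Finset (Fin n)), Can H →
    H.card ≤ p5 n := by
  obtain ⟨n₀, h⟩ := exact
  refine ⟨n₀, fun n hn H hH => ?_⟩
  rcases hn with hn | ⟨a, rfl⟩
  · have := h n hn _ H hH univ (fun _ => 1) ⟨fun _ => zero_le_one,
      fun v hv => (hv (mem_univ v)).elim, by simp⟩ fun _ => ⟨1, by simp⟩
    simpa [lam, W] using this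
  · have e : ∀ i, (5 * a + i) / 5 = a + i / 5 := fun i => by omega
    have := bound hH
    simp only [p5, e, prod_range_succ, prod_range_zero]
    norm_num
    nlinarith

theorem build (n : ℕ) : ∃ H : Finset (Finset (Fin n)), H ⊆ powersetCard 5 univ ∧
    (∀ A ∈ H, ∀ B ∈ H, ∀ C ∈ H, A ∪ B = A ∪ C → B = C) ∧ H.card = p5 n := by
  obtain ⟨e⟩ : Nonempty ((Σ i : Fin 5, Fin ((n + i) / 5)) ≃ Fin n) := Fintype.card_eq.1 (by
    simp only [Fintype.card_sigma, Fintype.card_fin, Fin.sum_univ_five]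
    norm_num
    omega)
  let T : (∀ i : Fin 5, Fin ((n + i) / 5)) → Finset (Fin n) := fun f => univ.image fun i => e ⟨i, f i⟩
  have m : ∀ f i x, e ⟨i, x⟩ ∈ T f ↔ x = f i := fun f i x => by
    simp only [T, mem_image, mem_univ, true_and, e.apply_eq_iff_eq]
    exact ⟨fun ⟨j, hj⟩ => by cases hj; rfl, fun h => ⟨i, h ▸ rfl⟩⟩
  refine ⟨univ.image T, fun A hA => ?_, fun A a B b C c h => ?_, ?_⟩
  · obtain ⟨f, -, rfl⟩ := mem_image.1 hA
    refine mem_powersetCard.2 ⟨subset_univ _, ?_⟩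
    rw [card_image_of_injective _ fun i j h => congrArg Sigma.fst (e.injective h)]
    simp
  · obtain ⟨f, -, rfl⟩ := mem_image.1 a
    obtain ⟨g, -, rfl⟩ := mem_image.1 b
    obtain ⟨k, -, rfl⟩ := mem_image.1 c
    refine congrArg T (funext fun i => ?_)
    have p := Finset.ext_iff.1 h (e ⟨i, g i⟩)
    have q := Finset.ext_iff.1 h (e ⟨i, k i⟩)
    simp only [mem_union, m, or_true, true_iff, iff_true] at p q
    rcases p with p | p
    · exact q.elim (fun r => p.trans r.symm) Eq.symm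
    · exact p
  · rw [card_image_of_injective _ fun f g (h : T f = T g) => funext fun i =>
        (m g i _).1 (h ▸ (m f i _).2 rfl),
      card_univ, Fintype.card_pi, p5, ← Fin.prod_univ_eq_prod_range (fun i => (n + i) / 5) 5]
    simp only [Fintype.card_fin]

end Pool.Agent.MP_6574cc_co.H3
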