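import Pool.Agent.MP_6574cc_co.H3.Core

/-! The largest value of the weight polynomial. -/

set_option autoImplicit false

namespace Pool.Agent.MP_6574cc_co.H3

open Finset Filter Topology

theorem small {a b c d e δ : ℝ} (hδ : 0 < δ)
    (h : ∀ t, 0 < t → t < δ → t * a + t ^ 2 * b + t ^ 3 * c + t ^ 4 * d + t ^ 5 * e ≤ 0) :
    a ≤ 0 := by
  have h1 : Tendsto (fun t : ℝ => a + t * b + t ^ 2 * c + t ^ 3 * d + t ^ 4 * e) (𝓝[>] 0)
      (𝓝 (a + 0 * b + 0 ^ 2 * c + 0 ^ 3 * d + 0 ^ 4 * e)) :=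
    (Continuous.tendsto (by fun_prop) 0).mono_left nhdsWithin_le_nhds
  have h2 := le_of_tendsto h1 (b := 0) (by
    filter_upwards [Ioo_mem_nhdsGT hδ] with t ht
    refine le_of_mul_le_mul_left ?_ ht.1
    linarith [h t ht.1 ht.2])
  simpa using h2

variable {V : Type} [DecidableEq V]

omit [DecidableEq V] in
theorem expand (y : V → ℝ) (t : ℝ) {A : Finset V} (h : A.card = 5) : ∏ v ∈ A, (1 + t * y v) =
    1 + t * es y 1 A + t ^ 2 * es y 2 A + t ^ 3 * es y 3 A + t ^ 4 * es y 4 A +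
      t ^ 5 * es y 5 A := by
  have e : ∀ j, ∑ X ∈ A.powersetCard j, ∏ v ∈ X, t * y v = t ^ j * es y j A := fun j => by
    rw [es, mul_sum]
    exact sum_congr rfl fun X hX => by
      rw [prod_mul_distrib, prod_const, (mem_powersetCard.1 hX).2, W]
  rw [prod_one_add, sum_powerset, h]
  simp only [e, sum_range_succ, sum_range_zero, es_zero]
  ring

/-- weightings supported in a set -/
def Sim (S : Finset V) (N : ℝ) : Set (V → ℝ) :=
  {w | (∀ v, 0 ≤ w v) ∧ (∀ v, v ∉ S → w v = 0) ∧ ∑ v ∈ S, w v = N}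

/-- cancellative families of five element sets -/
structure Can (H : Finset (Finset V)) : Prop where
  card : ∀ A ∈ H, A.card = 5
  canc : ∀ A ∈ H, ∀ B ∈ H, ∀ C ∈ H, B \ A = C \ A → B = C

theorem lam_filter {S : Finset V} {N : ℝ} {w : V → ℝ} (hw : w ∈ Sim S N) (H : Finset (Finset V)) :
    lam (H.filter (· ⊆ S)) w = lam H w := by
  refine sum_filter_of_ne fun A _ h v hv => ?_
  by_contra q
  exact h (prod_eq_zero hv (hw.2.1 v q))

theorem Sim.erase {S : Finset V} {N : ℝ} {w : V → ℝ} (hw : w ∈ Sim S N) {v : V} (h : w v = 0) :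
    w ∈ Sim (S.erase v) N :=
  ⟨hw.1, fun u hu => by
    by_cases e : u = v
    exacts [e ▸ h, hw.2.1 u fun q => hu (mem_erase.2 ⟨e, q⟩)], (sum_erase S h).trans hw.2.2⟩

/-- move the weight of `v` to `u` -/
def mv (w : V → ℝ) (u v : V) : V → ℝ := fun x => if x = u then w u + w v else if x = v then 0 else w x

theorem Sim.mv {S : Finset V} {N : ℝ} {w : V → ℝ} (hw : w ∈ Sim S N) {u v : V} (hu : u ∈ S)
    (hv : v ∈ S) (h : u ≠ v) : mv w u v ∈ Sim (S.erase v) N := by
  refine Sim.erase ⟨fun x => ?_, fun x hx => ?_, ?_⟩ (by simp [H3.mv, h.symm])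
  · unfold H3.mv
    split_ifs
    exacts [add_nonneg (hw.1 u) (hw.1 v), le_rfl, hw.1 x]
  · rw [H3.mv, if_neg fun (e : x = u) => hx (e ▸ hu), if_neg fun (e : x = v) => hx (e ▸ hv),
      hw.2.1 x hx]
  · have : ∀ x, H3.mv w u v x = w x + (if x = u then w v else 0) - if x = v then w v else 0 :=
      fun x => by
        unfold H3.mv
        split_ifs <;> simp_all
    simp only [this, sum_sub_distrib, sum_add_distrib, sum_ite_eq', if_pos hu, if_pos hv, hw.2.2]
    ring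

theorem W_mv (w : V → ℝ) {u v : V} (h : u ≠ v) {A : Finset V} (hu : u ∈ A) (hv : v ∉ A) :
    (w u + w v) * W w A = w u * W (mv w u v) A + w v * W (mv w v u) A := by
  have e : W (mv w v u) A = 0 := prod_eq_zero hu (by simp [mv, h])
  rw [e, W, W, ← mul_prod_erase _ _ hu, ← mul_prod_erase _ (mv w u v) hu,
    prod_congr rfl (f := mv w u v) (g := w) fun x hx => by
      rw [mv, if_neg (mem_erase.1 hx).1, if_neg fun (e : x = v) => hv (e ▸ (mem_erase.1 hx).2)]]
  simp only [mv, if_true]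
  ring

theorem lam_mv {S : Finset V} {N : ℝ} {w : V → ℝ} (hw : w ∈ Sim S N) {H : Finset (Finset V)}
    {u v : V} (h : u ≠ v) (hc : ¬∃ A ∈ H.filter (· ⊆ S), u ∈ A ∧ v ∈ A) :
    (w u + w v) * lam H w = w u * lam H (mv w u v) + w v * lam H (mv w v u) := by
  simp only [lam, mul_sum, ← sum_add_distrib]
  refine sum_congr rfl fun A hA => ?_
  by_cases hu : u ∈ A <;> by_cases hv : v ∈ A
  · obtain ⟨x, x1, x2⟩ := not_subset.1 fun q => hc ⟨A, mem_filter.2 ⟨hA, q⟩, hu, hv⟩
    rw [show W w A = 0 from prod_eq_zero x1 (hw.2.1 x x2),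
      show W (mv w u v) A = 0 from prod_eq_zero hv (by simp [mv, h.symm]),
      show W (mv w v u) A = 0 from prod_eq_zero hu (by simp [mv, h])]
    ring
  · exact W_mv w h hu hv
  · linarith [W_mv w h.symm hv hu]
  · have e : ∀ a b, a ∉ A → b ∉ A → W (mv w a b) A = W w A := fun a b p q =>
      prod_congr rfl fun x hx => by
        rw [mv, if_neg fun (e : x = a) => p (e ▸ hx), if_neg fun (e : x = b) => q (e ▸ hx)]
    rw [e u v hu hv, e v u hv hu]
    ring

theorem second {S : Finset V} {H : Finset (Finset V)} (hH : Can H) {w : V → ℝ} (hw : w ∈ Sim S 1)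
    (hm : ∀ x ∈ Sim S 1, lam H x ≤ lam H w) (y : V → ℝ) (hy : ∑ v ∈ S, w v * y v = 0) :
    ∃ δ : ℝ, 0 < δ ∧ ∀ t, 0 < t → t < δ → t * ∑ A ∈ H, W w A * es y 1 A +
      t ^ 2 * ∑ A ∈ H, W w A * es y 2 A + t ^ 3 * ∑ A ∈ H, W w A * es y 3 A +
      t ^ 4 * ∑ A ∈ H, W w A * es y 4 A + t ^ 5 * ∑ A ∈ H, W w A * es y 5 A ≤ 0 := by
  have p : 0 < 1 + ∑ v ∈ S, |y v| := by positivity
  refine ⟨(1 + ∑ v ∈ S, |y v|)⁻¹, inv_pos.2 p, fun t t0 t1 => ?_⟩
  have h := hm (fun v => w v * (1 + t * y v)) ⟨fun v => ?_, fun v hv => by simp [hw.2.1 v hv], ?_⟩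
  · have e : lam H (fun v => w v * (1 + t * y v)) = ∑ A ∈ H, (W w A + t * (W w A * es y 1 A) +
        t ^ 2 * (W w A * es y 2 A) + t ^ 3 * (W w A * es y 3 A) + t ^ 4 * (W w A * es y 4 A) +
        t ^ 5 * (W w A * es y 5 A)) := sum_congr rfl fun A hA => by
      rw [W, prod_mul_distrib, expand y t (hH.card A hA), W]
      ring
    simp only [e, sum_add_distrib, ← mul_sum] at h
    rw [lam] at h
    linarith
  · by_cases hv : v ∈ S
    · have a := single_le_sum (f := fun v => |y v|) (fun _ _ => abs_nonneg _) hv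
      have b := (lt_inv_mul_iff₀ p).1 (t1.trans_eq (mul_one _).symm)
      refine mul_nonneg (hw.1 v) ?_
      nlinarith [neg_abs_le (y v)]
    · simp [hw.2.1 v hv]
  · rw [sum_congr rfl (g := fun v => w v + t * (w v * y v)) fun v _ => by ring, sum_add_distrib,
      ← mul_sum, hy, hw.2.2]
    ring

theorem opt {S : Finset V} {H : Finset (Finset V)} {w : V → ℝ} (c : Cov S H w) (hw : w ∈ Sim S 1)
    (hp : ∀ v ∈ S, 0 < w v) (hm : ∀ x ∈ Sim S 1, lam H x ≤ lam H w) : Opt S H w := by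
  have hH : Can H := ⟨c.card, c.canc⟩
  have h1 : ∀ y : V → ℝ, ∑ v ∈ S, w v * y v = 0 → ∑ A ∈ H, W w A * es y 1 A ≤ 0 := fun y hy =>
    let ⟨_, a, b⟩ := second hH hw hm y hy
    small a b
  have h2 : ∀ y : V → ℝ, ∑ v ∈ S, w v * y v = 0 → ∑ A ∈ H, W w A * ∑ v ∈ A, y v = 0 :=
    fun y hy => by
      have a := h1 y hy
      have b := h1 (fun v => -y v) (by simp [hy])
      simp only [(es_eq _ _).1, ps, pow_one, sum_neg_distrib, mul_neg] at a b
      linarith
  have f1 : ∀ f : V → ℝ, ∑ A ∈ H, W w A * ∑ v ∈ A, f v = 5 * lam H w * ∑ v ∈ S, w v * f v :=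
    fun f => by
      obtain ⟨d, hd⟩ : ∃ d, d = ∑ v ∈ S, w v * f v := ⟨_, rfl⟩
      have a := h2 (fun v => f v - d) (by
        simp only [mul_sub, sum_sub_distrib, ← sum_mul, hw.2.2, ← hd]; ring)
      rw [sum_congr rfl (g := fun A => W w A * ∑ v ∈ A, f v - 5 * d * W w A) fun A hA => by
        rw [sum_sub_distrib, sum_const, c.card A hA, nsmul_eq_mul]; push_cast; ring,
        sum_sub_distrib, ← mul_sum] at a
      rw [← hd, lam]
      linarith
  refine ⟨c, hp, by simpa [ps] using hw.2.2, f1, fun y hy => ?_⟩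
  obtain ⟨δ, a, b⟩ := second hH hw hm y hy
  have e : ∑ A ∈ H, W w A * es y 1 A = 0 := by
    simpa only [(es_eq _ _).1, ps, pow_one] using h2 y hy
  have : ∑ A ∈ H, W w A * es y 2 A ≤ 0 := small (b := ∑ A ∈ H, W w A * es y 3 A)
    (c := ∑ A ∈ H, W w A * es y 4 A) (d := ∑ A ∈ H, W w A * es y 5 A) (e := 0) a
    fun t t0 t1 => le_of_mul_le_mul_left (by
      have := b t t0 t1
      rw [e] at this
      linarith) t0
  rw [← f1 fun v => y v ^ 2]
  rw [sum_congr rfl (g := fun A => (W w A * (∑ v ∈ A, y v) ^ 2 - W w A * ∑ v ∈ A, y v ^ 2) / 2)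
    fun A _ => by simp only [(es_eq _ _).2.1, ps, pow_one]; ring, ← sum_div, sum_sub_distrib] at this
  linarith

omit [DecidableEq V] in
theorem lam_cont (H : Finset (Finset V)) : Continuous (lam H) := by
  unfold lam W
  fun_prop

theorem Sim.compact [Fintype V] (S : Finset V) : IsCompact (Sim S 1) := by
  refine (isCompact_Icc (a := 0) (b := 1)).of_isClosed_subset ?_ fun w hw => ⟨hw.1, fun v => ?_⟩
  · simp only [Sim, Set.ofPred_and, Set.ofPred_forall]
    exact (isClosed_iInter fun v => isClosed_le continuous_const (continuous_apply v)).inter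
      ((isClosed_iInter fun v => isClosed_iInter fun _ =>
        isClosed_eq (continuous_apply v) continuous_const).inter
        (isClosed_eq (by fun_prop) continuous_const))
  · by_cases hv : v ∈ S
    · exact (single_le_sum (fun u _ => hw.1 u) hv).trans hw.2.2.le
    · simp [hw.2.1 v hv]

theorem Can.core {S : Finset V} {H : Finset (Finset V)} (hH : Can H) {w : V → ℝ}
    (hw : w ∈ Sim S 1) (hp : ∀ v ∈ S, w v ≠ 0)
    (hc : ∀ u ∈ S, ∀ v ∈ S, u ≠ v → ∃ A ∈ H.filter (· ⊆ S), u ∈ A ∧ v ∈ A)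
    (hm : ∀ x ∈ Sim S 1, lam H x ≤ lam H w) (h : 1 / 3125 ≤ lam H w) :
    S ∈ H ∧ (∀ v ∈ S, w v = 1 / 5) ∧ lam H w = 1 / 3125 := by
  have := (opt (H := H.filter (· ⊆ S)) ⟨fun A hA => (mem_filter.1 hA).2,
    fun A hA => hH.card A (mem_filter.1 hA).1, fun A a B b C d =>
      hH.canc A (mem_filter.1 a).1 B (mem_filter.1 b).1 C (mem_filter.1 d).1, hc,
    fun v _ => hw.1 v⟩ hw (fun v hv => (hw.1 v).lt_of_ne' (hp v hv)) fun x hx => by
      rw [lam_filter hx, lam_filter hw]; exact hm x hx).core (by rwa [lam_filter hw])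
  rw [lam_filter hw] at this
  exact ⟨(mem_filter.1 this.1).1, this.2⟩

theorem Can.lag [Fintype V] {H : Finset (Finset V)} (hH : Can H) (S : Finset V) :
    ∀ w ∈ Sim S 1, lam H w ≤ 1 / 3125 := by
  induction S using Finset.strongInduction with
  | H S ih =>
    intro x hx
    obtain ⟨w, hw, hm⟩ := (Sim.compact S).exists_isMaxOn ⟨x, hx⟩ (lam_cont H).continuousOn
    refine le_trans (hm hx) ?_
    by_cases hp : ∀ v ∈ S, w v ≠ 0
    swap
    · push Not at hp
      obtain ⟨v, hv, e⟩ := hp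
      exact ih _ (erase_ssubset hv) w (Sim.erase hw e)
    by_cases hc : ∀ u ∈ S, ∀ v ∈ S, u ≠ v → ∃ A ∈ H.filter (· ⊆ S), u ∈ A ∧ v ∈ A
    · exact (le_total _ _).elim id fun h => (hH.core hw hp hc (fun y hy => hm hy) h).2.2.le
    · simp only [not_forall] at hc
      obtain ⟨u, hu, v, hv, h, hc⟩ := hc
      have a := mul_le_mul_of_nonneg_left (ih _ (erase_ssubset hv) _ (Sim.mv hw hu hv h)) (hw.1 u)
      have b := mul_le_mul_of_nonneg_left (ih _ (erase_ssubset hu) _ (Sim.mv hw hv hu h.symm))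
        (hw.1 v)
      refine le_of_mul_le_mul_left ?_ (add_pos ((hw.1 u).lt_of_ne' (hp u hu))
        ((hw.1 v).lt_of_ne' (hp v hv)))
      linarith [lam_mv hw h hc]

end Pool.Agent.MP_6574cc_co.H3
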