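import Pool.Agent.MP_6574cc_co.H3.Comb

/-! Two more local inequalities. -/

set_option autoImplicit false

namespace Pool.Agent.MP_6574cc_co.H3

open Finset

variable {V : Type} [DecidableEq V]

theorem lk_full {O X : Finset V} {w : V → ℝ} (nn : ∀ v ∈ O, 0 ≤ w v) (hX : X ∈ O.powersetCard 2) :
    ps w 1 O - ps w 1 X ≤ lk w (O.powersetCard 3) 1 X := by
  obtain ⟨a, b⟩ := mem_powersetCard.1 hX
  have e : ∑ z ∈ O \ X, w z ^ 1 = ∑ T ∈ (O \ X).image (insert · X), W w (T \ X) * 1 := by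
    rw [sum_image fun z hz y hy e => (insert_inj (mem_sdiff.1 (mem_coe.1 hz)).2).1 e]
    refine sum_congr rfl fun z hz => ?_
    rw [insert_sdiff_of_notMem _ (mem_sdiff.1 hz).2, Finset.sdiff_self]
    simp [W]
  rw [← ps_sdiff w a, ps, e]
  refine sum_le_sum_of_subset_of_nonneg (fun T hT => ?_) fun T hT _ => mul_nonneg
    (W_nonneg nn (sdiff_subset.trans (mem_powersetCard.1 (mem_filter.1 hT).1).1)) zero_le_one
  obtain ⟨z, hz, rfl⟩ := mem_image.1 hT
  exact mem_filter.2 ⟨mem_powersetCard.2 ⟨insert_subset (mem_sdiff.1 hz).1 a, by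
    rw [card_insert_of_notMem (mem_sdiff.1 hz).2, b]⟩, subset_insert _ _⟩

namespace Cov

variable {S : Finset V} {H : Finset (Finset V)} {w : V → ℝ} (c : Cov S H w)

include c

theorem t2 {A : Finset V} (hA : A ∈ H) : ∑ X ∈ A.powersetCard 2, lk w H 1 X +
    ∑ B ∈ H with (B ∩ A).card = 3, W w (B \ A) * (ps w 1 S - ps w 1 A - ps w 1 B) ≤
      es w 3 A + 3 * es w 3 (S \ A) := by
  classical
  have nn : ∀ v ∈ S \ A, 0 ≤ w v := fun v hv => c.nn v (mem_sdiff.1 hv).1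
  have e1 : ∑ B ∈ H with (B ∩ A).card = 3, W w (B \ A) * ps w 1 (B ∩ A) +
      ∑ B ∈ H with (B ∩ A).card = 3, W w (B \ A) * (ps w 1 S - ps w 1 A - ps w 1 B) =
      ∑ B ∈ H with (B ∩ A).card = 3, W w (B \ A) * (ps w 1 (S \ A) - ps w 1 (B \ A)) := by
    rw [← sum_add_distrib]
    refine sum_congr rfl fun B _ => ?_
    rw [ps_sdiff w (c.sub A hA), ← sdiff_inter_self_left B A, ps_sdiff w inter_subset_left]
    ring
  have e2 := c.out hA 3 2 rfl fun R => W w R * (ps w 1 (S \ A) - ps w 1 R)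
  have e3 := c.out hA 2 3 rfl (W w)
  have e4 := dc w (S := S \ A) (H := (S \ A).powersetCard 3)
    (fun T hT => (mem_powersetCard.1 hT).1) 2 1 fun R => if ∃ B ∈ H, B \ A = R then 1 else 0
  have e5 : (∑ R ∈ (S \ A).powersetCard 2, if ∃ B ∈ H, B \ A = R then
      W w R * (ps w 1 (S \ A) - ps w 1 R) else 0) ≤ ∑ X ∈ (S \ A).powersetCard 2,
      W w X * (if ∃ B ∈ H, B \ A = X then 1 else 0) * lk w ((S \ A).powersetCard 3) 1 X := by
    refine sum_le_sum fun R hR => ?_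
    split_ifs
    · rw [mul_one]
      exact mul_le_mul_of_nonneg_left (lk_full nn hR) (W_nonneg nn (mem_powersetCard.1 hR).1)
    · simp
  have e6 : (∑ T ∈ (S \ A).powersetCard 3, W w T * (1 : Finset V → ℝ) T *
      ∑ X ∈ T.powersetCard 2, if ∃ B ∈ H, B \ A = X then (1 : ℝ) else 0) +
      (∑ T ∈ (S \ A).powersetCard 3, if ∃ B ∈ H, B \ A = T then W w T else 0) ≤
      3 * es w 3 (S \ A) := by
    rw [es, mul_sum, ← sum_add_distrib]
    refine sum_le_sum fun T hT => ?_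
    obtain ⟨a, b⟩ := mem_powersetCard.1 hT
    have p := W_nonneg nn a
    have k3 : (T.powersetCard 2).card = 3 := by rw [card_powersetCard, b]; rfl
    rw [sum_boole, Pi.one_apply]
    split_ifs with h
    · obtain ⟨B, hB, rfl⟩ := h
      obtain ⟨R, r1, r2⟩ := c.eight hA hB b
      have : (((B \ A).powersetCard 2).filter fun X => ∃ C ∈ H, C \ A = X).card < 3 :=
        k3 ▸ card_lt_card (filter_ssubset.2 ⟨R, r1, r2⟩)
      have : ((((B \ A).powersetCard 2).filter fun X => ∃ C ∈ H, C \ A = X).card : ℝ) ≤ 2 := by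
        exact_mod_cast Nat.le_of_lt_succ this
      nlinarith
    · have : (((T.powersetCard 2).filter fun X => ∃ C ∈ H, C \ A = X).card : ℝ) ≤ 3 := by
        exact_mod_cast k3 ▸ card_filter_le _ _
      nlinarith
  rw [c.s2 hA]
  linarith

theorem link (h1 : ps w 1 S = 1) {X : Finset V} (hX : X ∈ S.powersetCard 3) :
    lk w H (fun A => 1 - 2 * ps w 1 A) X ≤
      lk w H 1 X * (1 - 2 * ps w 1 X - 8 * lk w H 1 X * (1 + ps w 1 X)) := by
  obtain ⟨a, b⟩ := mem_powersetCard.1 hX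
  have sub : ∀ A ∈ H.filter (X ⊆ ·), A \ X ⊆ S := fun A hA =>
    sdiff_subset.trans (c.sub A (mem_filter.1 hA).1)
  have e1 : lk w H (fun A => 1 - 2 * ps w 1 A) X = lk w H 1 X * (1 - 2 * ps w 1 X) -
      2 * ∑ A ∈ H with X ⊆ A, W w (A \ X) * ps w 1 (A \ X) := by
    rw [lk, lk, sum_mul, mul_sum, ← sum_sub_distrib]
    refine sum_congr rfl fun A hA => ?_
    rw [ps_sdiff w (mem_filter.1 hA).2, Pi.one_apply]
    ring
  have e2 : ∑ A ∈ H with X ⊆ A, ps w 1 (A \ X) ≤ 1 - ps w 1 X := by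
    rw [← h1, ← ps_sdiff w a]
    simp only [ps]
    rw [← sum_biUnion]
    · refine sum_le_sum_of_subset_of_nonneg (biUnion_subset.2 fun A hA =>
        sdiff_subset_sdiff (c.sub A (mem_filter.1 hA).1) le_rfl) fun v hv _ =>
          pow_nonneg (c.nn v (mem_sdiff.1 hv).1) 1
    · intro A hA B hB e
      obtain ⟨a1, a2⟩ := mem_filter.1 (mem_coe.1 hA)
      obtain ⟨b1, b2⟩ := mem_filter.1 (mem_coe.1 hB)
      refine disjoint_left.2 fun z z1 z2 => ?_
      have := card_le_card (insert_subset (mem_inter.2 ⟨(mem_sdiff.1 z1).1, (mem_sdiff.1 z2).1⟩)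
        (subset_inter a2 b2))
      rw [card_insert_of_notMem (mem_sdiff.1 z1).2, b] at this
      have := c.inter b1 a1 e
      omega
  have e3 : (∑ A ∈ H with X ⊆ A, W w (A \ X) * (1 : Finset V → ℝ) A) ^ 2 ≤
      (∑ A ∈ H with X ⊆ A, W w (A \ X) * ps w 1 (A \ X)) *
        ∑ A ∈ H with X ⊆ A, ps w 1 (A \ X) / 4 := by
    refine sum_sq_le_sum_mul_sum_of_sq_le_mul _ (fun A hA => mul_nonneg (W_nonneg c.nn (sub A hA))
      (ps_nonneg c.nn (sub A hA) 1)) (fun A hA => div_nonneg (ps_nonneg c.nn (sub A hA) 1)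
        (by norm_num)) fun A hA => ?_
    have p := W_nonneg c.nn (sub A hA)
    obtain ⟨u, v, huv, e⟩ := card_eq_two.1 (show (A \ X).card = 2 by
      rw [card_sdiff_of_subset (mem_filter.1 hA).2, c.card A (mem_filter.1 hA).1, b])
    rw [e] at p ⊢
    simp only [W, ps, prod_pair huv, sum_pair huv, Pi.one_apply, pow_one] at p ⊢
    nlinarith [mul_nonneg p (sq_nonneg (w u - w v))]
  rw [← sum_div] at e3
  have e4 : 0 ≤ ∑ A ∈ H with X ⊆ A, W w (A \ X) * ps w 1 (A \ X) := sum_nonneg fun A hA =>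
    mul_nonneg (W_nonneg c.nn (sub A hA)) (ps_nonneg c.nn (sub A hA) 1)
  have e5 := ps_nonneg c.nn a 1
  rw [e1]
  change lk w H 1 X ^ 2 ≤ _ at e3
  have e6 := mul_le_mul_of_nonneg_left e2 e4
  have e7 := mul_le_mul_of_nonneg_right (show 4 * lk w H 1 X ^ 2 ≤
    (∑ A ∈ H with X ⊆ A, W w (A \ X) * ps w 1 (A \ X)) * (1 - ps w 1 X) by
    linarith) (show 0 ≤ 1 + ps w 1 X by linarith)
  nlinarith [mul_nonneg e4 (sq_nonneg (ps w 1 X))]

end Cov

end Pool.Agent.MP_6574cc_co.H3
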