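import Pool.Agent.MP_6574cc_co.H3.Lag

/-! Uniqueness of the optimal weighting and a gap. -/

set_option autoImplicit false

namespace Pool.Agent.MP_6574cc_co.H3

open Finset Filter Topology

variable {V : Type} [DecidableEq V]

/-- the weight of the link of a point -/
def lv (H : Finset (Finset V)) (w : V → ℝ) (u : V) : ℝ :=
  ∑ A ∈ H, if u ∈ A then W w (A.erase u) else 0

/-- two members differ in at least two points -/
def Far (H : Finset (Finset V)) : Prop := ∀ A ∈ H, ∀ B ∈ H, (A \ B).card ≤ 1 → A = B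

theorem Can.uniq [Fintype V] {H : Finset (Finset V)} (hH : Can H) (hF : Far H) (S : Finset V) :
    ∀ w ∈ Sim S 1, 1 / 3125 ≤ lam H w →
      ∃ A ∈ H, (∀ v ∈ A, w v = 1 / 5) ∧ ∀ v, v ∉ A → w v = 0 := by
  induction S using Finset.strongInduction with
  | H S ih =>
    intro w hw h
    by_cases hp : ∀ v ∈ S, w v ≠ 0
    swap
    · push Not at hp
      obtain ⟨v, hv, e⟩ := hp
      exact ih _ (erase_ssubset hv) w (Sim.erase hw e) h
    by_cases hc : ∀ u ∈ S, ∀ v ∈ S, u ≠ v → ∃ A ∈ H.filter (· ⊆ S), u ∈ A ∧ v ∈ A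
    · have := hH.core hw hp hc (fun y hy => (hH.lag S y hy).trans h) h
      exact ⟨S, this.1, this.2.1, hw.2.1⟩
    exfalso
    simp only [not_forall] at hc
    obtain ⟨u, hu, v, hv, e, hc⟩ := hc
    have pu := (hw.1 u).lt_of_ne' (hp u hu)
    have pv := (hw.1 v).lt_of_ne' (hp v hv)
    have a := hH.lag _ _ (Sim.mv hw hu hv e)
    have b := hH.lag _ _ (Sim.mv hw hv hu e.symm)
    have d := lam_mv hw e hc
    have f := mul_le_mul_of_nonneg_left h (add_pos pu pv).le
    obtain ⟨A, hA, a1, a2⟩ := ih _ (erase_ssubset hv) _ (Sim.mv hw hu hv e)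
      (le_of_mul_le_mul_left (by linarith [mul_le_mul_of_nonneg_left b pv.le]) pu)
    obtain ⟨B, hB, b1, b2⟩ := ih _ (erase_ssubset hu) _ (Sim.mv hw hv hu e.symm)
      (le_of_mul_le_mul_left (by linarith [mul_le_mul_of_nonneg_left a pu.le]) pv)
    obtain rfl : A = B := hF A hA B hB ((card_le_card (t := {u}) fun x hx => by
      by_contra q
      have q' : x ≠ u := by simpa using q
      have x1 := a1 x (mem_sdiff.1 hx).1
      have x2 := b2 x (mem_sdiff.1 hx).2
      by_cases r : x = v <;> simp only [mv, q', r, e.symm, if_false, if_true] at x1 x2 <;>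
        linarith).trans (by simp))
    by_cases q : u ∈ A
    · have := b1 u q
      simp only [mv, e, if_false, if_true] at this
      linarith
    · have := a2 u q
      simp only [mv, if_true] at this
      linarith

theorem gap [Fintype V] {H : Finset (Finset V)} (hH : Can H) (hF : Far H)
    (h6 : 6 ≤ Fintype.card V) : ∀ᶠ ε in 𝓝[>] (0 : ℝ), ∀ w ∈ Sim (univ : Finset V) 1,
      (∀ u, 1 / 1000 ≤ lv H w u) → lam H w ≤ 1 / 3125 - ε := by
  have hK : IsCompact (Sim (univ : Finset V) 1 ∩ {w | ∀ u, 1 / 1000 ≤ lv H w u}) := by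
    refine (Sim.compact _).inter_right ?_
    rw [Set.ofPred_forall]
    refine isClosed_iInter fun u => isClosed_le continuous_const
      (continuous_finsetSum _ fun A _ => ?_)
    split_ifs
    · unfold W
      fun_prop
    · exact continuous_const
  rcases Set.eq_empty_or_nonempty (Sim (univ : Finset V) 1 ∩ {w | ∀ u, 1 / 1000 ≤ lv H w u}) with
    e | e
  · exact Eventually.of_forall fun ε w a b => (e.le ⟨a, b⟩).elim
  obtain ⟨x, ⟨x1, x2⟩, hm⟩ := hK.exists_isMaxOn e (lam_cont H).continuousOn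
  have lt : lam H x < 1 / 3125 := by
    by_contra q
    obtain ⟨A, hA, -, a2⟩ := hH.uniq hF _ x x1 (not_lt.1 q)
    obtain ⟨u, -, hu⟩ := exists_mem_notMem_of_card_lt_card (s := A) (t := univ)
      (by rw [hH.card A hA, card_univ]; omega)
    have : lv H x u = 0 := sum_eq_zero fun B hB => by
      split_ifs with r
      · by_contra s
        refine hu (hF B hB A hA ((card_le_card (t := {u}) fun y hy => ?_).trans (by simp)) ▸ r)
        by_contra t
        exact s (prod_eq_zero (mem_erase.2 ⟨by simpa using t, (mem_sdiff.1 hy).1⟩)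
          (a2 y (mem_sdiff.1 hy).2))
      · rfl
    linarith [x2 u]
  filter_upwards [Ioo_mem_nhdsGT (sub_pos.2 lt)] with ε hε w a b
  linarith [hε.2, show lam H w ≤ lam H x from hm ⟨a, b⟩]

theorem gap_fin : ∃ ε : ℝ, 0 < ε ∧ ∀ m : Fin 1001, ∀ H : Finset (Finset (Fin m)), Can H → Far H →
    6 ≤ (m : ℕ) → ∀ w ∈ Sim (univ : Finset (Fin m)) 1, (∀ u, 1 / 1000 ≤ lv H w u) →
      lam H w ≤ 1 / 3125 - ε := by
  refine (Eventually.and self_mem_nhdsWithin (f := 𝓝[>] (0 : ℝ)) ?_).exists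
  refine eventually_all.2 fun m => eventually_all.2 fun H => ?_
  by_cases h : Can H ∧ Far H ∧ 6 ≤ (m : ℕ)
  · exact (gap h.1 h.2.1 (by simpa using h.2.2)).mono fun ε a _ _ _ => a
  · exact Eventually.of_forall fun ε a b c => (h ⟨a, b, c⟩).elim

theorem gap_all : ∃ ε : ℝ, 0 < ε ∧ ∀ (V : Type) [DecidableEq V] (S : Finset V)
    (H : Finset (Finset V)), (∀ A ∈ H, A ⊆ S) → Can H → Far H → 6 ≤ S.card → S.card ≤ 1000 →
    ∀ w : V → ℝ, (∀ v, 0 ≤ w v) → ∑ v ∈ S, w v = 1 → (∀ u ∈ S, 1 / 1000 ≤ lv H w u) →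
      lam H w ≤ 1 / 3125 - ε := by
  obtain ⟨ε, h0, h⟩ := gap_fin
  refine ⟨ε, h0, fun V _ S H hS hH hF h6 h7 w w0 w1 hl => ?_⟩
  let f : Fin S.card ↪ V := S.equivFin.symm.toEmbedding.trans (Function.Embedding.subtype _)
  have hf : univ.map f = S := eq_of_subset_of_card_le (fun x hx => by
    obtain ⟨i, -, rfl⟩ := mem_map.1 hx
    exact (S.equivFin.symm i).2) (by simp)
  let G : Finset (Finset (Fin S.card)) := univ.filter fun A => A.map f ∈ H
  have mG : ∀ A, A ∈ G ↔ A.map f ∈ H := fun A => by simp [G]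
  have sG : ∀ F : Finset V → ℝ, ∑ A ∈ G, F (A.map f) = ∑ A ∈ H, F A := fun F =>
    sum_bij (fun A _ => A.map f) (fun A hA => (mG A).1 hA) (fun _ _ _ _ e => map_injective f e)
      (fun A hA => by
        obtain ⟨B, -, rfl⟩ := subset_map_iff.1 (hf ▸ hS A hA)
        exact ⟨B, (mG B).2 hA, rfl⟩) fun _ _ => rfl
  have eW : ∀ A, W (w ∘ f) A = W w (A.map f) := fun A => by simp [W]
  have := h ⟨S.card, by omega⟩ G ⟨fun A hA => (card_map f).symm.trans (hH.card _ ((mG A).1 hA)),
    fun A a B b C d e => map_injective f (hH.canc _ ((mG A).1 a) _ ((mG B).1 b) _ ((mG C).1 d)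
      (by rw [← Finset.map_sdiff, ← Finset.map_sdiff, e]))⟩
    (fun A a B b e => map_injective f (hF _ ((mG A).1 a) _ ((mG B).1 b)
      (by rwa [← Finset.map_sdiff, card_map]))) h6 (w ∘ f)
    ⟨fun v => w0 _, fun v hv => (hv (mem_univ v)).elim, 
      ((sum_map univ f w).symm.trans (congrArg (·.sum w) hf)).trans w1⟩
    fun u => (hl (f u) (hf.le (mem_map_of_mem f (mem_univ u)))).trans (le_of_eq (by
      rw [lv, lv, ← sG]
      simp only [eW, map_erase, Finset.mem_map']))
  rwa [lam, sum_congr rfl fun A _ => eW A, sG] at this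

end Pool.Agent.MP_6574cc_co.H3
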