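import Mathlib

/-! Weighted sums over subsets. -/

set_option autoImplicit false

namespace Pool.Agent.MP_6574cc_co.H3

open Finset

variable {V : Type} [DecidableEq V] (w : V → ℝ)

/-- product of the weights -/
def W (X : Finset V) : ℝ := ∏ v ∈ X, w v

/-- power sums -/
def ps (j : ℕ) (X : Finset V) : ℝ := ∑ v ∈ X, w v ^ j

/-- elementary symmetric sums -/
def es (k : ℕ) (S : Finset V) : ℝ := ∑ X ∈ S.powersetCard k, W w X

/-- product times sum -/
def gs (k : ℕ) (S : Finset V) : ℝ := ∑ X ∈ S.powersetCard k, W w X * ps w 1 X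

/-- sum of the sums -/
def cs (k : ℕ) (S : Finset V) : ℝ := ∑ X ∈ S.powersetCard k, ps w 1 X

theorem sum_pc_insert {a : V} {S : Finset V} (h : a ∉ S) (k : ℕ) (f : Finset V → ℝ) :
    ∑ X ∈ (insert a S).powersetCard (k + 1), f X =
      ∑ X ∈ S.powersetCard (k + 1), f X + ∑ X ∈ S.powersetCard k, f (insert a X) := by
  rw [powersetCard_succ_insert h, sum_union, sum_image]
  · intro X hX Y hY e
    have h1 : a ∉ X := fun q => h ((mem_powersetCard.1 hX).1 q)
    have h2 : a ∉ Y := fun q => h ((mem_powersetCard.1 hY).1 q)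
    rw [← erase_insert h1, ← erase_insert h2, e]
  · rw [disjoint_left]
    intro X hX hX'
    obtain ⟨Y, -, rfl⟩ := mem_image.1 hX'
    exact h ((mem_powersetCard.1 hX).1 (mem_insert_self _ _))

theorem ps_insert {a : V} {S : Finset V} (h : a ∉ S) (j : ℕ) :
    ps w j (insert a S) = w a ^ j + ps w j S := sum_insert h

theorem es_insert {a : V} {S : Finset V} (h : a ∉ S) (k : ℕ) :
    es w (k + 1) (insert a S) = es w (k + 1) S + w a * es w k S := by
  rw [es, sum_pc_insert h, es, es, mul_sum]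
  congr 1
  exact sum_congr rfl fun X hX => prod_insert fun q => h ((mem_powersetCard.1 hX).1 q)

theorem gs_insert {a : V} {S : Finset V} (h : a ∉ S) (k : ℕ) :
    gs w (k + 1) (insert a S) = gs w (k + 1) S + w a * (gs w k S + w a * es w k S) := by
  rw [gs, sum_pc_insert h, gs, gs, es, mul_sum, ← sum_add_distrib, mul_sum]
  congr 1
  refine sum_congr rfl fun X hX => ?_
  have : a ∉ X := fun q => h ((mem_powersetCard.1 hX).1 q)
  rw [ps_insert w this, W, prod_insert this, W]
  ring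

theorem cs_insert {a : V} {S : Finset V} (h : a ∉ S) (k : ℕ) :
    cs w (k + 1) (insert a S) = cs w (k + 1) S + (cs w k S + S.card.choose k * w a) := by
  rw [cs, sum_pc_insert h, cs, cs, ← card_powersetCard, ← nsmul_eq_mul, ← sum_const,
    ← sum_add_distrib]
  congr 1
  refine sum_congr rfl fun X hX => ?_
  rw [ps_insert w fun q => h ((mem_powersetCard.1 hX).1 q)]
  ring

omit [DecidableEq V] in
theorem es_zero (S : Finset V) : es w 0 S = 1 := by simp [es, W]

omit [DecidableEq V] in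
theorem gs_zero (S : Finset V) : gs w 0 S = 0 := by simp [gs, ps]

omit [DecidableEq V] in
theorem cs_zero (S : Finset V) : cs w 0 S = 0 := by simp [cs, ps]

theorem es_eq (S : Finset V) : es w 1 S = ps w 1 S ∧
    es w 2 S = (ps w 1 S ^ 2 - ps w 2 S) / 2 ∧
    es w 3 S = (ps w 1 S ^ 3 - 3 * ps w 1 S * ps w 2 S + 2 * ps w 3 S) / 6 ∧
    es w 4 S = (ps w 1 S ^ 4 - 6 * ps w 1 S ^ 2 * ps w 2 S + 3 * ps w 2 S ^ 2 +
      8 * ps w 1 S * ps w 3 S - 6 * ps w 4 S) / 24 := by
  induction S using Finset.induction_on with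
  | empty => simp [es, ps, powersetCard_eq_empty.2]
  | insert a S h ih =>
    obtain ⟨h1, h2, h3, h4⟩ := ih
    rw [es_insert w h 0, es_insert w h 1, es_insert w h 2, es_insert w h 3]
    simp only [ps_insert w h, es_zero, zero_add, Nat.reduceAdd, h1, h2, h3, h4]
    refine ⟨by ring, by ring, by ring, by ring⟩

theorem gs_eq (S : Finset V) : gs w 1 S = ps w 2 S ∧
    gs w 2 S = ps w 1 S * ps w 2 S - ps w 3 S ∧
    gs w 3 S = ps w 2 S * (ps w 1 S ^ 2 - ps w 2 S) / 2 - ps w 1 S * ps w 3 S + ps w 4 S := by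
  induction S using Finset.induction_on with
  | empty => simp [gs, ps, powersetCard_eq_empty.2]
  | insert a S h ih =>
    obtain ⟨h1, h2, h3⟩ := ih
    obtain ⟨e1, e2, -⟩ := es_eq w S
    rw [gs_insert w h 0, gs_insert w h 1, gs_insert w h 2]
    simp only [ps_insert w h, es_zero, gs_zero, zero_add, Nat.reduceAdd, h1, h2, h3, e1, e2]
    refine ⟨by ring, by ring, by ring⟩

theorem cs_eq (S : Finset V) : cs w 1 S = ps w 1 S ∧ cs w 2 S = (S.card - 1) * ps w 1 S ∧
    cs w 3 S = (S.card - 1) * (S.card - 2) / 2 * ps w 1 S := by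
  induction S using Finset.induction_on with
  | empty => simp [cs, ps, powersetCard_eq_empty.2]
  | insert a S h ih =>
    obtain ⟨h1, h2, h3⟩ := ih
    rw [cs_insert w h 0, cs_insert w h 1, cs_insert w h 2]
    simp only [ps_insert w h, cs_zero, zero_add, Nat.reduceAdd, h1, h2, h3, card_insert_of_notMem h,
      Nat.choose_zero_right, Nat.choose_one_right, Nat.cast_choose_two, Nat.cast_add, Nat.cast_one]
    refine ⟨by ring, by ring, by ring⟩

theorem ps_sdiff {A S : Finset V} (h : A ⊆ S) (j : ℕ) : ps w j (S \ A) = ps w j S - ps w j A := by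
  rw [ps, ps, ps, ← sum_sdiff h]; ring

theorem W_sdiff {A S : Finset V} (h : A ⊆ S) : W w A * W w (S \ A) = W w S := by
  rw [W, W, W, ← prod_sdiff h]; ring

theorem compl_sum {Y : Finset V} {k j : ℕ} (h : Y.card = k + j) :
    ∑ X ∈ Y.powersetCard k, W w (Y \ X) = es w j Y := by
  refine sum_nbij' (fun X => Y \ X) (fun X => Y \ X) ?_ ?_ ?_ ?_ fun _ _ => rfl
  · intro X hX
    obtain ⟨a, b⟩ := mem_powersetCard.1 hX
    exact mem_powersetCard.2 ⟨sdiff_subset, by rw [card_sdiff_of_subset a]; omega⟩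
  · intro X hX
    obtain ⟨a, b⟩ := mem_powersetCard.1 hX
    exact mem_powersetCard.2 ⟨sdiff_subset, by rw [card_sdiff_of_subset a]; omega⟩
  · exact fun X hX => Finset.sdiff_sdiff_eq_self (mem_powersetCard.1 hX).1
  · exact fun X hX => Finset.sdiff_sdiff_eq_self (mem_powersetCard.1 hX).1

/-- weighted link sums -/
def lk (H : Finset (Finset V)) (f : Finset V → ℝ) (X : Finset V) : ℝ :=
  ∑ A ∈ H with X ⊆ A, W w (A \ X) * f A

/-- double counting -/
theorem dc {S : Finset V} {H : Finset (Finset V)} (h : ∀ A ∈ H, A ⊆ S) (k : ℕ)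
    (f g : Finset V → ℝ) : ∑ X ∈ S.powersetCard k, W w X * g X * lk w H f X =
      ∑ A ∈ H, W w A * f A * ∑ X ∈ A.powersetCard k, g X := by
  simp only [lk, mul_sum]
  rw [sum_comm' (t' := H) (s' := fun A => A.powersetCard k)]
  · refine sum_congr rfl fun A _ => sum_congr rfl fun X hX => ?_
    rw [← W_sdiff w (mem_powersetCard.1 hX).1]
    ring
  · intro X A
    simp only [mem_powersetCard, mem_filter]
    exact ⟨fun ⟨a, b⟩ => ⟨⟨b.2, a.2⟩, b.1⟩, fun ⟨a, b⟩ => ⟨⟨a.1.trans (h A b), a.2⟩, b, a.1⟩⟩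

/-- the links of the subsets of one set -/
theorem loc (H : Finset (Finset V)) (A : Finset V) (k : ℕ) :
    ∑ X ∈ A.powersetCard k, lk w H 1 X =
      ∑ B ∈ H, W w (B \ A) * ∑ X ∈ (B ∩ A).powersetCard k, W w ((B ∩ A) \ X) := by
  simp only [lk, mul_sum]
  rw [sum_comm' (t' := H) (s' := fun B => (B ∩ A).powersetCard k)]
  · refine sum_congr rfl fun B _ => sum_congr rfl fun X hX => ?_
    have h := subset_inter_iff.1 (mem_powersetCard.1 hX).1
    rw [Pi.one_apply, mul_one, W, W, W, ← prod_union (disjoint_left.2 fun x a b =>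
      (mem_sdiff.1 a).2 (mem_inter.1 (mem_sdiff.1 b).1).2)]
    congr 1
    ext x
    simp only [mem_sdiff, mem_union, mem_inter]
    have := @h.2 x
    tauto
  · intro X B
    simp only [mem_powersetCard, mem_filter, subset_inter_iff]
    tauto

variable {w}

omit [DecidableEq V] in
theorem W_nonneg {S X : Finset V} (h : ∀ v ∈ S, 0 ≤ w v) (hX : X ⊆ S) : 0 ≤ W w X :=
  prod_nonneg fun v hv => h v (hX hv)

omit [DecidableEq V] in
theorem ps_nonneg {S X : Finset V} (h : ∀ v ∈ S, 0 ≤ w v) (hX : X ⊆ S) (j : ℕ) : 0 ≤ ps w j X :=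
  sum_nonneg fun v hv => pow_nonneg (h v (hX hv)) j

end Pool.Agent.MP_6574cc_co.H3
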